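import Pool.Agent.Gen.F5.X123CCDm6.S000
import Pool.Agent.Gen.F5.X123CCDm6.S001
import Pool.Agent.Gen.F5.X123CCDm6.S002

set_option autoImplicit false
set_option maxRecDepth 100000

namespace Pool.Agent.Gen.F5.X123CCDm6

open Pool.Agent.Helper72.F5

def n0 : Cl (O (nat_lit 6)) (R (nat_lit 131281))
    (p (nat_lit 0x200014) (nat_lit 1) (p (nat_lit 0xb0004) (nat_lit 0) (p (nat_lit 0x20000c) (nat_lit 1) (p (nat_lit 0x109) (nat_lit 1) (p (nat_lit 0x101) (nat_lit 0) (p (nat_lit 0x81) (nat_lit 1) (p (nat_lit 0xc1) (nat_lit 1) (p (nat_lit 0x119) (nat_lit 1) (p (nat_lit 0xd1) (nat_lit 0) (p (nat_lit 0x89) (nat_lit 0) (p (nat_lit 0x41) (nat_lit 0) (p (nat_lit 0x10b0a8989089a) (nat_lit 0) (p (nat_lit 0x8a8a0908881a) (nat_lit 0) (p (nat_lit 0x10a090888079a) (nat_lit 0) (p (nat_lit 0x89888807871a) (nat_lit 0) (p (nat_lit 0x8000080000000090787068a) (nat_lit 0) (p (nat_lit 0x10807068602) (nat_lit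 0) (p (nat_lit 0x8786860582) (nat_lit 0) (p (nat_lit 0x10686058502) (nat_lit 0) (p (nat_lit 0x8605850482) (nat_lit 0) (p (nat_lit 0x160004) (nat_lit 0) (p (nat_lit 0x68512) (nat_lit 0) (p (nat_lit 0x58492) (nat_lit 0) (p (nat_lit 0x48412) (nat_lit 0) (p (nat_lit 0x50312) (nat_lit 0) (p (nat_lit 0x40292) (nat_lit 0) (p (nat_lit 0x30212) (nat_lit 0) (p (nat_lit 0x38112) (nat_lit 0) (p (nat_lit 0x28092) (nat_lit 0) (p (nat_lit 0x18012) (nat_lit 0) pn)))))))))))))))))))))))))))))) :=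
  Cl.node (nat_lit 0xc9) (nat_lit 2) (by decide +kernel) (ClAll.succ (ClAll.succ ClAll.zero s26) s27)

def n1 : Cl (O (nat_lit 6)) (R (nat_lit 131281))
    (p (nat_lit 0xb0004) (nat_lit 0) (p (nat_lit 0x20000c) (nat_lit 1) (p (nat_lit 0x109) (nat_lit 1) (p (nat_lit 0x101) (nat_lit 0) (p (nat_lit 0x81) (nat_lit 1) (p (nat_lit 0xc1) (nat_lit 1) (p (nat_lit 0x119) (nat_lit 1) (p (nat_lit 0xd1) (nat_lit 0) (p (nat_lit 0x89) (nat_lit 0) (p (nat_lit 0x41) (nat_lit 0) (p (nat_lit 0x10b0a8989089a) (nat_lit 0) (p (nat_lit 0x8a8a0908881a) (nat_lit 0) (p (nat_lit 0x10a090888079a) (nat_lit 0) (p (nat_lit 0x89888807871a) (nat_lit 0) (p (nat_lit 0x8000080000000090787068a) (nat_lit 0) (p (nat_lit 0x10807068602) (nat_lit 0) (p (nat_lit 0x8786860582) (nat_lit 0) (p (nat_lit 0x10686058502) (nat_lit 0) (p (nat_lit 0x8605850482) (nat_lit 0) (p (nat_lit 0x160004) (nat_lit 0) (p (nat_lit 0x68512) (nat_lit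 0) (p (nat_lit 0x58492) (nat_lit 0) (p (nat_lit 0x48412) (nat_lit 0) (p (nat_lit 0x50312) (nat_lit 0) (p (nat_lit 0x40292) (nat_lit 0) (p (nat_lit 0x30212) (nat_lit 0) (p (nat_lit 0x38112) (nat_lit 0) (p (nat_lit 0x28092) (nat_lit 0) (p (nat_lit 0x18012) (nat_lit 0) pn))))))))))))))))))))))))))))) :=
  Cl.node (nat_lit 0x200014) (nat_lit 2) (by decide +kernel) (ClAll.succ (ClAll.succ ClAll.zero s25) n0)

def n2 : Cl (O (nat_lit 6)) (R (nat_lit 131281))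
    (p (nat_lit 0xb0004) (nat_lit 0) (p (nat_lit 0x20000c) (nat_lit 1) (p (nat_lit 0xc9) (nat_lit 1) (p (nat_lit 0x81) (nat_lit 0) (p (nat_lit 0x101) (nat_lit 1) (p (nat_lit 0x119) (nat_lit 0) (p (nat_lit 0xd1) (nat_lit 0) (p (nat_lit 0x89) (nat_lit 0) (p (nat_lit 0x41) (nat_lit 0) (p (nat_lit 0x10b0a8989089a) (nat_lit 0) (p (nat_lit 0x8a8a0908881a) (nat_lit 0) (p (nat_lit 0x10a090888079a) (nat_lit 0) (p (nat_lit 0x89888807871a) (nat_lit 0) (p (nat_lit 0x8000080000000090787068a) (nat_lit 0) (p (nat_lit 0x10807068602) (nat_lit 0) (p (nat_lit 0x8786860582) (nat_lit 0) (p (nat_lit 0x10686058502) (nat_lit 0) (p (nat_lit 0x8605850482) (nat_lit 0) (p (nat_lit 0x160004) (nat_lit 0) (p (nat_lit 0x68512) (nat_lit 0) (p (nat_lit 0x58492) (nat_lit 0) (p (nat_lit 0x48412) (nat_lit 0) (p (nat_lit 0x50312) (nat_lit 0) (p (nat_lit 0x40292) (nat_lit 0) (p (nat_lit 0x30212) (nat_lit 0) (p (nat_lit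 0x38112) (nat_lit 0) (p (nat_lit 0x28092) (nat_lit 0) (p (nat_lit 0x18012) (nat_lit 0) pn)))))))))))))))))))))))))))) :=
  Cl.node (nat_lit 0x200014) (nat_lit 2) (by decide +kernel) (ClAll.succ (ClAll.succ ClAll.zero s7) s8)

def n3 : Cl (O (nat_lit 6)) (R (nat_lit 131281))
    (p (nat_lit 0x20000c) (nat_lit 1) (p (nat_lit 0x109) (nat_lit 1) (p (nat_lit 0x101) (nat_lit 0) (p (nat_lit 0x81) (nat_lit 1) (p (nat_lit 0xc1) (nat_lit 1) (p (nat_lit 0x119) (nat_lit 1) (p (nat_lit 0xd1) (nat_lit 0) (p (nat_lit 0x89) (nat_lit 0) (p (nat_lit 0x41) (nat_lit 0) (p (nat_lit 0x10b0a8989089a) (nat_lit 0) (p (nat_lit 0x8a8a0908881a) (nat_lit 0) (p (nat_lit 0x10a090888079a) (nat_lit 0) (p (nat_lit 0x89888807871a) (nat_lit 0) (p (nat_lit 0x8000080000000090787068a) (nat_lit 0) (p (nat_lit 0x10807068602) (nat_lit 0) (p (nat_lit 0x8786860582) (nat_lit 0) (p (nat_lit 0x10686058502) (nat_lit 0) (p (nat_lit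 0x8605850482) (nat_lit 0) (p (nat_lit 0x160004) (nat_lit 0) (p (nat_lit 0x68512) (nat_lit 0) (p (nat_lit 0x58492) (nat_lit 0) (p (nat_lit 0x48412) (nat_lit 0) (p (nat_lit 0x50312) (nat_lit 0) (p (nat_lit 0x40292) (nat_lit 0) (p (nat_lit 0x30212) (nat_lit 0) (p (nat_lit 0x38112) (nat_lit 0) (p (nat_lit 0x28092) (nat_lit 0) (p (nat_lit 0x18012) (nat_lit 0) pn)))))))))))))))))))))))))))) :=
  Cl.node (nat_lit 0xb0004) (nat_lit 2) (by decide +kernel) (ClAll.succ (ClAll.succ ClAll.zero n1) s28)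

def n4 : Cl (O (nat_lit 6)) (R (nat_lit 131281))
    (p (nat_lit 0x20000c) (nat_lit 0) (p (nat_lit 0x109) (nat_lit 1) (p (nat_lit 0x89) (nat_lit 1) (p (nat_lit 0xc9) (nat_lit 1) (p (nat_lit 0xc1) (nat_lit 0) (p (nat_lit 0x119) (nat_lit 1) (p (nat_lit 0xd1) (nat_lit 0) (p (nat_lit 0x81) (nat_lit 0) (p (nat_lit 0x41) (nat_lit 1) (p (nat_lit 0x10b0a8989089a) (nat_lit 0) (p (nat_lit 0x8a8a0908881a) (nat_lit 0) (p (nat_lit 0x10a090888079a) (nat_lit 0) (p (nat_lit 0x89888807871a) (nat_lit 0) (p (nat_lit 0x8000080000000090787068a) (nat_lit 0) (p (nat_lit 0x10807068602) (nat_lit 0) (p (nat_lit 0x8786860582) (nat_lit 0) (p (nat_lit 0x10686058502) (nat_lit 0) (p (nat_lit 0x8605850482) (nat_lit 0) (p (nat_lit 0x160004) (nat_lit 0) (p (nat_lit 0x68512) (nat_lit 0) (p (nat_lit 0x58492) (nat_lit 0) (p (nat_lit 0x48412) (nat_lit 0) (p (nat_lit 0x50312) (nat_lit 0) (p (nat_lit 0x40292) (nat_lit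 0) (p (nat_lit 0x30212) (nat_lit 0) (p (nat_lit 0x38112) (nat_lit 0) (p (nat_lit 0x28092) (nat_lit 0) (p (nat_lit 0x18012) (nat_lit 0) pn)))))))))))))))))))))))))))) :=
  Cl.node (nat_lit 0x200014) (nat_lit 2) (by decide +kernel) (ClAll.succ (ClAll.succ ClAll.zero s76) s77)

def n5 : Cl (O (nat_lit 6)) (R (nat_lit 131281))
    (p (nat_lit 0x20000c) (nat_lit 1) (p (nat_lit 0xc9) (nat_lit 1) (p (nat_lit 0x81) (nat_lit 0) (p (nat_lit 0x101) (nat_lit 1) (p (nat_lit 0x119) (nat_lit 0) (p (nat_lit 0xd1) (nat_lit 0) (p (nat_lit 0x89) (nat_lit 0) (p (nat_lit 0x41) (nat_lit 0) (p (nat_lit 0x10b0a8989089a) (nat_lit 0) (p (nat_lit 0x8a8a0908881a) (nat_lit 0) (p (nat_lit 0x10a090888079a) (nat_lit 0) (p (nat_lit 0x89888807871a) (nat_lit 0) (p (nat_lit 0x8000080000000090787068a) (nat_lit 0) (p (nat_lit 0x10807068602) (nat_lit 0) (p (nat_lit 0x8786860582) (nat_lit 0) (p (nat_lit 0x10686058502)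 (nat_lit 0) (p (nat_lit 0x8605850482) (nat_lit 0) (p (nat_lit 0x160004) (nat_lit 0) (p (nat_lit 0x68512) (nat_lit 0) (p (nat_lit 0x58492) (nat_lit 0) (p (nat_lit 0x48412) (nat_lit 0) (p (nat_lit 0x50312) (nat_lit 0) (p (nat_lit 0x40292) (nat_lit 0) (p (nat_lit 0x30212) (nat_lit 0) (p (nat_lit 0x38112) (nat_lit 0) (p (nat_lit 0x28092) (nat_lit 0) (p (nat_lit 0x18012) (nat_lit 0) pn))))))))))))))))))))))))))) :=
  Cl.node (nat_lit 0xb0004) (nat_lit 2) (by decide +kernel) (ClAll.succ (ClAll.succ ClAll.zero n2) s9)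

def n6 : Cl (O (nat_lit 6)) (R (nat_lit 131281))
    (p (nat_lit 0xc9) (nat_lit 0) (p (nat_lit 0xc1) (nat_lit 0) (p (nat_lit 0x81) (nat_lit 1) (p (nat_lit 0x101) (nat_lit 1) (p (nat_lit 0x119) (nat_lit 0) (p (nat_lit 0xd1) (nat_lit 0) (p (nat_lit 0x89) (nat_lit 0) (p (nat_lit 0x41) (nat_lit 0) (p (nat_lit 0x10b0a8989089a) (nat_lit 0) (p (nat_lit 0x8a8a0908881a) (nat_lit 0) (p (nat_lit 0x10a090888079a) (nat_lit 0) (p (nat_lit 0x89888807871a) (nat_lit 0) (p (nat_lit 0x8000080000000090787068a) (nat_lit 0) (p (nat_lit 0x10807068602) (nat_lit 0) (p (nat_lit 0x8786860582) (nat_lit 0) (p (nat_lit 0x10686058502) (nat_lit 0) (p (nat_lit 0x8605850482) (nat_lit 0) (p (nat_lit 0x160004) (nat_lit 0) (p (nat_lit 0x68512) (nat_lit 0) (p (nat_lit 0x58492) (nat_lit 0) (p (nat_lit 0x48412) (nat_lit 0) (p (nat_lit 0x50312) (nat_lit 0) (p (nat_lit 0x40292) (nat_lit 0) (p (nat_lit 0x30212) (nat_lit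 0) (p (nat_lit 0x38112) (nat_lit 0) (p (nat_lit 0x28092) (nat_lit 0) (p (nat_lit 0x18012) (nat_lit 0) pn))))))))))))))))))))))))))) :=
  Cl.node (nat_lit 0x20000c) (nat_lit 2) (by decide +kernel) (ClAll.succ (ClAll.succ ClAll.zero s10) s11)

def n7 : Cl (O (nat_lit 6)) (R (nat_lit 131281))
    (p (nat_lit 0xc9) (nat_lit 1) (p (nat_lit 0xc1) (nat_lit 0) (p (nat_lit 0x81) (nat_lit 1) (p (nat_lit 0x101) (nat_lit 1) (p (nat_lit 0x119) (nat_lit 0) (p (nat_lit 0xd1) (nat_lit 0) (p (nat_lit 0x89) (nat_lit 0) (p (nat_lit 0x41) (nat_lit 0) (p (nat_lit 0x10b0a8989089a) (nat_lit 0) (p (nat_lit 0x8a8a0908881a) (nat_lit 0) (p (nat_lit 0x10a090888079a) (nat_lit 0) (p (nat_lit 0x89888807871a) (nat_lit 0) (p (nat_lit 0x8000080000000090787068a) (nat_lit 0) (p (nat_lit 0x10807068602) (nat_lit 0) (p (nat_lit 0x8786860582) (nat_lit 0) (p (nat_lit 0x10686058502) (nat_lit 0) (p (nat_lit 0x8605850482)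 (nat_lit 0) (p (nat_lit 0x160004) (nat_lit 0) (p (nat_lit 0x68512) (nat_lit 0) (p (nat_lit 0x58492) (nat_lit 0) (p (nat_lit 0x48412) (nat_lit 0) (p (nat_lit 0x50312) (nat_lit 0) (p (nat_lit 0x40292) (nat_lit 0) (p (nat_lit 0x30212) (nat_lit 0) (p (nat_lit 0x38112) (nat_lit 0) (p (nat_lit 0x28092) (nat_lit 0) (p (nat_lit 0x18012) (nat_lit 0) pn))))))))))))))))))))))))))) :=
  Cl.node (nat_lit 0x20000c) (nat_lit 2) (by decide +kernel) (ClAll.succ (ClAll.succ ClAll.zero s12) s13)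

def n8 : Cl (O (nat_lit 6)) (R (nat_lit 131281))
    (p (nat_lit 0x109) (nat_lit 0) (p (nat_lit 0x101) (nat_lit 0) (p (nat_lit 0x81) (nat_lit 1) (p (nat_lit 0xc1) (nat_lit 1) (p (nat_lit 0x119) (nat_lit 1) (p (nat_lit 0xd1) (nat_lit 0) (p (nat_lit 0x89) (nat_lit 0) (p (nat_lit 0x41) (nat_lit 0) (p (nat_lit 0x10b0a8989089a) (nat_lit 0) (p (nat_lit 0x8a8a0908881a) (nat_lit 0) (p (nat_lit 0x10a090888079a) (nat_lit 0) (p (nat_lit 0x89888807871a) (nat_lit 0) (p (nat_lit 0x8000080000000090787068a) (nat_lit 0) (p (nat_lit 0x10807068602) (nat_lit 0) (p (nat_lit 0x8786860582) (nat_lit 0) (p (nat_lit 0x10686058502) (nat_lit 0) (p (nat_lit 0x8605850482) (nat_lit 0) (p (nat_lit 0x160004) (nat_lit 0) (p (nat_lit 0x68512) (nat_lit 0) (p (nat_lit 0x58492) (nat_lit 0) (p (nat_lit 0x48412) (nat_lit 0) (p (nat_lit 0x50312) (nat_lit 0) (p (nat_lit 0x40292) (nat_lit 0) (p (nat_lit 0x30212) (nat_lit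 0) (p (nat_lit 0x38112) (nat_lit 0) (p (nat_lit 0x28092) (nat_lit 0) (p (nat_lit 0x18012) (nat_lit 0) pn))))))))))))))))))))))))))) :=
  Cl.node (nat_lit 0x20000c) (nat_lit 2) (by decide +kernel) (ClAll.succ (ClAll.succ ClAll.zero s22) s23)

def n9 : Cl (O (nat_lit 6)) (R (nat_lit 131281))
    (p (nat_lit 0x109) (nat_lit 1) (p (nat_lit 0x101) (nat_lit 0) (p (nat_lit 0x81) (nat_lit 1) (p (nat_lit 0xc1) (nat_lit 1) (p (nat_lit 0x119) (nat_lit 1) (p (nat_lit 0xd1) (nat_lit 0) (p (nat_lit 0x89) (nat_lit 0) (p (nat_lit 0x41) (nat_lit 0) (p (nat_lit 0x10b0a8989089a) (nat_lit 0) (p (nat_lit 0x8a8a0908881a) (nat_lit 0) (p (nat_lit 0x10a090888079a) (nat_lit 0) (p (nat_lit 0x89888807871a) (nat_lit 0) (p (nat_lit 0x8000080000000090787068a) (nat_lit 0) (p (nat_lit 0x10807068602) (nat_lit 0) (p (nat_lit 0x8786860582) (nat_lit 0) (p (nat_lit 0x10686058502) (nat_lit 0) (p (nat_lit 0x8605850482)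 (nat_lit 0) (p (nat_lit 0x160004) (nat_lit 0) (p (nat_lit 0x68512) (nat_lit 0) (p (nat_lit 0x58492) (nat_lit 0) (p (nat_lit 0x48412) (nat_lit 0) (p (nat_lit 0x50312) (nat_lit 0) (p (nat_lit 0x40292) (nat_lit 0) (p (nat_lit 0x30212) (nat_lit 0) (p (nat_lit 0x38112) (nat_lit 0) (p (nat_lit 0x28092) (nat_lit 0) (p (nat_lit 0x18012) (nat_lit 0) pn))))))))))))))))))))))))))) :=
  Cl.node (nat_lit 0x20000c) (nat_lit 2) (by decide +kernel) (ClAll.succ (ClAll.succ ClAll.zero s24) n3)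

def n10 : Cl (O (nat_lit 6)) (R (nat_lit 131281))
    (p (nat_lit 0xc9) (nat_lit 0) (p (nat_lit 0x89) (nat_lit 1) (p (nat_lit 0x109) (nat_lit 1) (p (nat_lit 0x101) (nat_lit 0) (p (nat_lit 0x119) (nat_lit 0) (p (nat_lit 0xd1) (nat_lit 0) (p (nat_lit 0x81) (nat_lit 0) (p (nat_lit 0x41) (nat_lit 1) (p (nat_lit 0x10b0a8989089a) (nat_lit 0) (p (nat_lit 0x8a8a0908881a) (nat_lit 0) (p (nat_lit 0x10a090888079a) (nat_lit 0) (p (nat_lit 0x89888807871a) (nat_lit 0) (p (nat_lit 0x8000080000000090787068a) (nat_lit 0) (p (nat_lit 0x10807068602) (nat_lit 0) (p (nat_lit 0x8786860582) (nat_lit 0) (p (nat_lit 0x10686058502) (nat_lit 0) (p (nat_lit 0x8605850482) (nat_lit 0) (p (nat_lit 0x160004) (nat_lit 0) (p (nat_lit 0x68512) (nat_lit 0) (p (nat_lit 0x58492) (nat_lit 0) (p (nat_lit 0x48412) (nat_lit 0) (p (nat_lit 0x50312) (nat_lit 0) (p (nat_lit 0x40292) (nat_lit 0) (p (nat_lit 0x30212) (nat_lit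 0) (p (nat_lit 0x38112) (nat_lit 0) (p (nat_lit 0x28092) (nat_lit 0) (p (nat_lit 0x18012) (nat_lit 0) pn))))))))))))))))))))))))))) :=
  Cl.node (nat_lit 0x20000c) (nat_lit 2) (by decide +kernel) (ClAll.succ (ClAll.succ ClAll.zero s64) s65)

def n11 : Cl (O (nat_lit 6)) (R (nat_lit 131281))
    (p (nat_lit 0xc9) (nat_lit 0) (p (nat_lit 0x89) (nat_lit 1) (p (nat_lit 0xc1) (nat_lit 0) (p (nat_lit 0x101) (nat_lit 1) (p (nat_lit 0x119) (nat_lit 0) (p (nat_lit 0xd1) (nat_lit 0) (p (nat_lit 0x81) (nat_lit 0) (p (nat_lit 0x41) (nat_lit 1) (p (nat_lit 0x10b0a8989089a) (nat_lit 0) (p (nat_lit 0x8a8a0908881a) (nat_lit 0) (p (nat_lit 0x10a090888079a) (nat_lit 0) (p (nat_lit 0x89888807871a) (nat_lit 0) (p (nat_lit 0x8000080000000090787068a) (nat_lit 0) (p (nat_lit 0x10807068602) (nat_lit 0) (p (nat_lit 0x8786860582) (nat_lit 0) (p (nat_lit 0x10686058502) (nat_lit 0) (p (nat_lit 0x8605850482)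 (nat_lit 0) (p (nat_lit 0x160004) (nat_lit 0) (p (nat_lit 0x68512) (nat_lit 0) (p (nat_lit 0x58492) (nat_lit 0) (p (nat_lit 0x48412) (nat_lit 0) (p (nat_lit 0x50312) (nat_lit 0) (p (nat_lit 0x40292) (nat_lit 0) (p (nat_lit 0x30212) (nat_lit 0) (p (nat_lit 0x38112) (nat_lit 0) (p (nat_lit 0x28092) (nat_lit 0) (p (nat_lit 0x18012) (nat_lit 0) pn))))))))))))))))))))))))))) :=
  Cl.node (nat_lit 0x20000c) (nat_lit 2) (by decide +kernel) (ClAll.succ (ClAll.succ ClAll.zero s68) s69)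

def n12 : Cl (O (nat_lit 6)) (R (nat_lit 131281))
    (p (nat_lit 0x109) (nat_lit 0) (p (nat_lit 0x89) (nat_lit 1) (p (nat_lit 0xc9) (nat_lit 1) (p (nat_lit 0xc1) (nat_lit 0) (p (nat_lit 0x119) (nat_lit 1) (p (nat_lit 0xd1) (nat_lit 0) (p (nat_lit 0x81) (nat_lit 0) (p (nat_lit 0x41) (nat_lit 1) (p (nat_lit 0x10b0a8989089a) (nat_lit 0) (p (nat_lit 0x8a8a0908881a) (nat_lit 0) (p (nat_lit 0x10a090888079a) (nat_lit 0) (p (nat_lit 0x89888807871a) (nat_lit 0) (p (nat_lit 0x8000080000000090787068a) (nat_lit 0) (p (nat_lit 0x10807068602) (nat_lit 0) (p (nat_lit 0x8786860582) (nat_lit 0) (p (nat_lit 0x10686058502) (nat_lit 0) (p (nat_lit 0x8605850482) (nat_lit 0) (p (nat_lit 0x160004) (nat_lit 0) (p (nat_lit 0x68512) (nat_lit 0) (p (nat_lit 0x58492) (nat_lit 0) (p (nat_lit 0x48412) (nat_lit 0) (p (nat_lit 0x50312) (nat_lit 0) (p (nat_lit 0x40292) (nat_lit 0) (p (nat_lit 0x30212) (nat_lit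 0) (p (nat_lit 0x38112) (nat_lit 0) (p (nat_lit 0x28092) (nat_lit 0) (p (nat_lit 0x18012) (nat_lit 0) pn))))))))))))))))))))))))))) :=
  Cl.node (nat_lit 0x20000c) (nat_lit 2) (by decide +kernel) (ClAll.succ (ClAll.succ ClAll.zero s74) s75)

def n13 : Cl (O (nat_lit 6)) (R (nat_lit 131281))
    (p (nat_lit 0x109) (nat_lit 1) (p (nat_lit 0x89) (nat_lit 1) (p (nat_lit 0xc9) (nat_lit 1) (p (nat_lit 0xc1) (nat_lit 0) (p (nat_lit 0x119) (nat_lit 1) (p (nat_lit 0xd1) (nat_lit 0) (p (nat_lit 0x81) (nat_lit 0) (p (nat_lit 0x41) (nat_lit 1) (p (nat_lit 0x10b0a8989089a) (nat_lit 0) (p (nat_lit 0x8a8a0908881a) (nat_lit 0) (p (nat_lit 0x10a090888079a) (nat_lit 0) (p (nat_lit 0x89888807871a) (nat_lit 0) (p (nat_lit 0x8000080000000090787068a) (nat_lit 0) (p (nat_lit 0x10807068602) (nat_lit 0) (p (nat_lit 0x8786860582) (nat_lit 0) (p (nat_lit 0x10686058502) (nat_lit 0) (p (nat_lit 0x8605850482)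 (nat_lit 0) (p (nat_lit 0x160004) (nat_lit 0) (p (nat_lit 0x68512) (nat_lit 0) (p (nat_lit 0x58492) (nat_lit 0) (p (nat_lit 0x48412) (nat_lit 0) (p (nat_lit 0x50312) (nat_lit 0) (p (nat_lit 0x40292) (nat_lit 0) (p (nat_lit 0x30212) (nat_lit 0) (p (nat_lit 0x38112) (nat_lit 0) (p (nat_lit 0x28092) (nat_lit 0) (p (nat_lit 0x18012) (nat_lit 0) pn))))))))))))))))))))))))))) :=
  Cl.node (nat_lit 0x20000c) (nat_lit 2) (by decide +kernel) (ClAll.succ (ClAll.succ ClAll.zero n4) s78)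

def n14 : Cl (O (nat_lit 6)) (R (nat_lit 131281))
    (p (nat_lit 0x109) (nat_lit 0) (p (nat_lit 0x89) (nat_lit 1) (p (nat_lit 0x101) (nat_lit 0) (p (nat_lit 0xc1) (nat_lit 1) (p (nat_lit 0x119) (nat_lit 1) (p (nat_lit 0xd1) (nat_lit 0) (p (nat_lit 0x81) (nat_lit 0) (p (nat_lit 0x41) (nat_lit 1) (p (nat_lit 0x10b0a8989089a) (nat_lit 0) (p (nat_lit 0x8a8a0908881a) (nat_lit 0) (p (nat_lit 0x10a090888079a) (nat_lit 0) (p (nat_lit 0x89888807871a) (nat_lit 0) (p (nat_lit 0x8000080000000090787068a) (nat_lit 0) (p (nat_lit 0x10807068602) (nat_lit 0) (p (nat_lit 0x8786860582) (nat_lit 0) (p (nat_lit 0x10686058502) (nat_lit 0) (p (nat_lit 0x8605850482) (nat_lit 0) (p (nat_lit 0x160004) (nat_lit 0) (p (nat_lit 0x68512) (nat_lit 0) (p (nat_lit 0x58492) (nat_lit 0) (p (nat_lit 0x48412) (nat_lit 0) (p (nat_lit 0x50312) (nat_lit 0) (p (nat_lit 0x40292) (nat_lit 0) (p (nat_lit 0x30212) (nat_lit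 0) (p (nat_lit 0x38112) (nat_lit 0) (p (nat_lit 0x28092) (nat_lit 0) (p (nat_lit 0x18012) (nat_lit 0) pn))))))))))))))))))))))))))) :=
  Cl.node (nat_lit 0x20000c) (nat_lit 2) (by decide +kernel) (ClAll.succ (ClAll.succ ClAll.zero s80) s81)

def n15 : Cl (O (nat_lit 6)) (R (nat_lit 131281))
    (p (nat_lit 0x109) (nat_lit 1) (p (nat_lit 0x89) (nat_lit 1) (p (nat_lit 0x101) (nat_lit 0) (p (nat_lit 0xc1) (nat_lit 1) (p (nat_lit 0x119) (nat_lit 1) (p (nat_lit 0xd1) (nat_lit 0) (p (nat_lit 0x81) (nat_lit 0) (p (nat_lit 0x41) (nat_lit 1) (p (nat_lit 0x10b0a8989089a) (nat_lit 0) (p (nat_lit 0x8a8a0908881a) (nat_lit 0) (p (nat_lit 0x10a090888079a) (nat_lit 0) (p (nat_lit 0x89888807871a) (nat_lit 0) (p (nat_lit 0x8000080000000090787068a) (nat_lit 0) (p (nat_lit 0x10807068602) (nat_lit 0) (p (nat_lit 0x8786860582) (nat_lit 0) (p (nat_lit 0x10686058502) (nat_lit 0) (p (nat_lit 0x8605850482)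 (nat_lit 0) (p (nat_lit 0x160004) (nat_lit 0) (p (nat_lit 0x68512) (nat_lit 0) (p (nat_lit 0x58492) (nat_lit 0) (p (nat_lit 0x48412) (nat_lit 0) (p (nat_lit 0x50312) (nat_lit 0) (p (nat_lit 0x40292) (nat_lit 0) (p (nat_lit 0x30212) (nat_lit 0) (p (nat_lit 0x38112) (nat_lit 0) (p (nat_lit 0x28092) (nat_lit 0) (p (nat_lit 0x18012) (nat_lit 0) pn))))))))))))))))))))))))))) :=
  Cl.node (nat_lit 0x20000c) (nat_lit 2) (by decide +kernel) (ClAll.succ (ClAll.succ ClAll.zero s82) s83)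

def n16 : Cl (O (nat_lit 6)) (R (nat_lit 131281))
    (p (nat_lit 0xc9) (nat_lit 0) (p (nat_lit 0x89) (nat_lit 1) (p (nat_lit 0x109) (nat_lit 1) (p (nat_lit 0x101) (nat_lit 0) (p (nat_lit 0x111) (nat_lit 0) (p (nat_lit 0xd1) (nat_lit 1) (p (nat_lit 0x81) (nat_lit 0) (p (nat_lit 0x41) (nat_lit 1) (p (nat_lit 0x10b0a8989089a) (nat_lit 0) (p (nat_lit 0x8a8a0908881a) (nat_lit 0) (p (nat_lit 0x10a090888079a) (nat_lit 0) (p (nat_lit 0x89888807871a) (nat_lit 0) (p (nat_lit 0x8000080000000090787068a) (nat_lit 0) (p (nat_lit 0x10807068602) (nat_lit 0) (p (nat_lit 0x8786860582) (nat_lit 0) (p (nat_lit 0x10686058502) (nat_lit 0) (p (nat_lit 0x8605850482) (nat_lit 0) (p (nat_lit 0x160004) (nat_lit 0) (p (nat_lit 0x68512) (nat_lit 0) (p (nat_lit 0x58492) (nat_lit 0) (p (nat_lit 0x48412) (nat_lit 0) (p (nat_lit 0x50312) (nat_lit 0) (p (nat_lit 0x40292) (nat_lit 0) (p (nat_lit 0x30212) (nat_lit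 0) (p (nat_lit 0x38112) (nat_lit 0) (p (nat_lit 0x28092) (nat_lit 0) (p (nat_lit 0x18012) (nat_lit 0) pn))))))))))))))))))))))))))) :=
  Cl.node (nat_lit 0x20000c) (nat_lit 2) (by decide +kernel) (ClAll.succ (ClAll.succ ClAll.zero s89) s90)

def n17 : Cl (O (nat_lit 6)) (R (nat_lit 131281))
    (p (nat_lit 0xc9) (nat_lit 1) (p (nat_lit 0x109) (nat_lit 1) (p (nat_lit 0x101) (nat_lit 0) (p (nat_lit 0x119) (nat_lit 0) (p (nat_lit 0xd1) (nat_lit 0) (p (nat_lit 0x89) (nat_lit 0) (p (nat_lit 0x41) (nat_lit 0) (p (nat_lit 0x10b0a8989089a) (nat_lit 0) (p (nat_lit 0x8a8a0908881a) (nat_lit 0) (p (nat_lit 0x10a090888079a) (nat_lit 0) (p (nat_lit 0x89888807871a) (nat_lit 0) (p (nat_lit 0x8000080000000090787068a) (nat_lit 0) (p (nat_lit 0x10807068602) (nat_lit 0) (p (nat_lit 0x8786860582) (nat_lit 0) (p (nat_lit 0x10686058502) (nat_lit 0) (p (nat_lit 0x8605850482) (nat_lit 0) (p (nat_lit 0x160004)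 (nat_lit 0) (p (nat_lit 0x68512) (nat_lit 0) (p (nat_lit 0x58492) (nat_lit 0) (p (nat_lit 0x48412) (nat_lit 0) (p (nat_lit 0x50312) (nat_lit 0) (p (nat_lit 0x40292) (nat_lit 0) (p (nat_lit 0x30212) (nat_lit 0) (p (nat_lit 0x38112) (nat_lit 0) (p (nat_lit 0x28092) (nat_lit 0) (p (nat_lit 0x18012) (nat_lit 0) pn)))))))))))))))))))))))))) :=
  Cl.node (nat_lit 0x20000c) (nat_lit 2) (by decide +kernel) (ClAll.succ (ClAll.succ ClAll.zero s2) s3)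

def n18 : Cl (O (nat_lit 6)) (R (nat_lit 131281))
    (p (nat_lit 0xc9) (nat_lit 0) (p (nat_lit 0x81) (nat_lit 0) (p (nat_lit 0x101) (nat_lit 1) (p (nat_lit 0x119) (nat_lit 0) (p (nat_lit 0xd1) (nat_lit 0) (p (nat_lit 0x89) (nat_lit 0) (p (nat_lit 0x41) (nat_lit 0) (p (nat_lit 0x10b0a8989089a) (nat_lit 0) (p (nat_lit 0x8a8a0908881a) (nat_lit 0) (p (nat_lit 0x10a090888079a) (nat_lit 0) (p (nat_lit 0x89888807871a) (nat_lit 0) (p (nat_lit 0x8000080000000090787068a) (nat_lit 0) (p (nat_lit 0x10807068602) (nat_lit 0) (p (nat_lit 0x8786860582) (nat_lit 0) (p (nat_lit 0x10686058502) (nat_lit 0) (p (nat_lit 0x8605850482) (nat_lit 0) (p (nat_lit 0x160004) (nat_lit 0) (p (nat_lit 0x68512) (nat_lit 0) (p (nat_lit 0x58492) (nat_lit 0) (p (nat_lit 0x48412) (nat_lit 0) (p (nat_lit 0x50312) (nat_lit 0) (p (nat_lit 0x40292) (nat_lit 0) (p (nat_lit 0x30212) (nat_lit 0) (p (nat_lit 0x38112) (nat_lit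 0) (p (nat_lit 0x28092) (nat_lit 0) (p (nat_lit 0x18012) (nat_lit 0) pn)))))))))))))))))))))))))) :=
  Cl.node (nat_lit 0x20000c) (nat_lit 2) (by decide +kernel) (ClAll.succ (ClAll.succ ClAll.zero s4) s5)

def n19 : Cl (O (nat_lit 6)) (R (nat_lit 131281))
    (p (nat_lit 0xc9) (nat_lit 1) (p (nat_lit 0x81) (nat_lit 0) (p (nat_lit 0x101) (nat_lit 1) (p (nat_lit 0x119) (nat_lit 0) (p (nat_lit 0xd1) (nat_lit 0) (p (nat_lit 0x89) (nat_lit 0) (p (nat_lit 0x41) (nat_lit 0) (p (nat_lit 0x10b0a8989089a) (nat_lit 0) (p (nat_lit 0x8a8a0908881a) (nat_lit 0) (p (nat_lit 0x10a090888079a) (nat_lit 0) (p (nat_lit 0x89888807871a) (nat_lit 0) (p (nat_lit 0x8000080000000090787068a) (nat_lit 0) (p (nat_lit 0x10807068602) (nat_lit 0) (p (nat_lit 0x8786860582) (nat_lit 0) (p (nat_lit 0x10686058502) (nat_lit 0) (p (nat_lit 0x8605850482) (nat_lit 0) (p (nat_lit 0x160004) (nat_lit 0) (p (nat_lit 0x68512)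 (nat_lit 0) (p (nat_lit 0x58492) (nat_lit 0) (p (nat_lit 0x48412) (nat_lit 0) (p (nat_lit 0x50312) (nat_lit 0) (p (nat_lit 0x40292) (nat_lit 0) (p (nat_lit 0x30212) (nat_lit 0) (p (nat_lit 0x38112) (nat_lit 0) (p (nat_lit 0x28092) (nat_lit 0) (p (nat_lit 0x18012) (nat_lit 0) pn)))))))))))))))))))))))))) :=
  Cl.node (nat_lit 0x20000c) (nat_lit 2) (by decide +kernel) (ClAll.succ (ClAll.succ ClAll.zero s6) n5)

def n20 : Cl (O (nat_lit 6)) (R (nat_lit 131281))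
    (p (nat_lit 0xc1) (nat_lit 0) (p (nat_lit 0x81) (nat_lit 1) (p (nat_lit 0x101) (nat_lit 1) (p (nat_lit 0x119) (nat_lit 0) (p (nat_lit 0xd1) (nat_lit 0) (p (nat_lit 0x89) (nat_lit 0) (p (nat_lit 0x41) (nat_lit 0) (p (nat_lit 0x10b0a8989089a) (nat_lit 0) (p (nat_lit 0x8a8a0908881a) (nat_lit 0) (p (nat_lit 0x10a090888079a) (nat_lit 0) (p (nat_lit 0x89888807871a) (nat_lit 0) (p (nat_lit 0x8000080000000090787068a) (nat_lit 0) (p (nat_lit 0x10807068602) (nat_lit 0) (p (nat_lit 0x8786860582) (nat_lit 0) (p (nat_lit 0x10686058502) (nat_lit 0) (p (nat_lit 0x8605850482) (nat_lit 0) (p (nat_lit 0x160004) (nat_lit 0) (p (nat_lit 0x68512) (nat_lit 0) (p (nat_lit 0x58492) (nat_lit 0) (p (nat_lit 0x48412) (nat_lit 0) (p (nat_lit 0x50312) (nat_lit 0) (p (nat_lit 0x40292) (nat_lit 0) (p (nat_lit 0x30212) (nat_lit 0) (p (nat_lit 0x38112) (nat_lit 0) (p (nat_lit 0x28092) (nat_lit 0) (p (nat_lit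 0x18012) (nat_lit 0) pn)))))))))))))))))))))))))) :=
  Cl.node (nat_lit 0xc9) (nat_lit 2) (by decide +kernel) (ClAll.succ (ClAll.succ ClAll.zero n6) n7)

def n21 : Cl (O (nat_lit 6)) (R (nat_lit 131281))
    (p (nat_lit 0x109) (nat_lit 1) (p (nat_lit 0xc9) (nat_lit 1) (p (nat_lit 0xc1) (nat_lit 0) (p (nat_lit 0x119) (nat_lit 1) (p (nat_lit 0xd1) (nat_lit 0) (p (nat_lit 0x89) (nat_lit 0) (p (nat_lit 0x41) (nat_lit 0) (p (nat_lit 0x10b0a8989089a) (nat_lit 0) (p (nat_lit 0x8a8a0908881a) (nat_lit 0) (p (nat_lit 0x10a090888079a) (nat_lit 0) (p (nat_lit 0x89888807871a) (nat_lit 0) (p (nat_lit 0x8000080000000090787068a) (nat_lit 0) (p (nat_lit 0x10807068602) (nat_lit 0) (p (nat_lit 0x8786860582) (nat_lit 0) (p (nat_lit 0x10686058502) (nat_lit 0) (p (nat_lit 0x8605850482) (nat_lit 0) (p (nat_lit 0x160004) (nat_lit 0) (p (nat_lit 0x68512) (nat_lit 0) (p (nat_lit 0x58492) (nat_lit 0) (p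 (nat_lit 0x48412) (nat_lit 0) (p (nat_lit 0x50312) (nat_lit 0) (p (nat_lit 0x40292) (nat_lit 0) (p (nat_lit 0x30212) (nat_lit 0) (p (nat_lit 0x38112) (nat_lit 0) (p (nat_lit 0x28092) (nat_lit 0) (p (nat_lit 0x18012) (nat_lit 0) pn)))))))))))))))))))))))))) :=
  Cl.node (nat_lit 0x20000c) (nat_lit 2) (by decide +kernel) (ClAll.succ (ClAll.succ ClAll.zero s17) s18)

def n22 : Cl (O (nat_lit 6)) (R (nat_lit 131281))
    (p (nat_lit 0x109) (nat_lit 1) (p (nat_lit 0x81) (nat_lit 0) (p (nat_lit 0xc1) (nat_lit 1) (p (nat_lit 0x119) (nat_lit 1) (p (nat_lit 0xd1) (nat_lit 0) (p (nat_lit 0x89) (nat_lit 0) (p (nat_lit 0x41) (nat_lit 0) (p (nat_lit 0x10b0a8989089a) (nat_lit 0) (p (nat_lit 0x8a8a0908881a) (nat_lit 0) (p (nat_lit 0x10a090888079a) (nat_lit 0) (p (nat_lit 0x89888807871a) (nat_lit 0) (p (nat_lit 0x8000080000000090787068a) (nat_lit 0) (p (nat_lit 0x10807068602) (nat_lit 0) (p (nat_lit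 0x8786860582) (nat_lit 0) (p (nat_lit 0x10686058502) (nat_lit 0) (p (nat_lit 0x8605850482) (nat_lit 0) (p (nat_lit 0x160004) (nat_lit 0) (p (nat_lit 0x68512) (nat_lit 0) (p (nat_lit 0x58492) (nat_lit 0) (p (nat_lit 0x48412) (nat_lit 0) (p (nat_lit 0x50312) (nat_lit 0) (p (nat_lit 0x40292) (nat_lit 0) (p (nat_lit 0x30212) (nat_lit 0) (p (nat_lit 0x38112) (nat_lit 0) (p (nat_lit 0x28092) (nat_lit 0) (p (nat_lit 0x18012) (nat_lit 0) pn)))))))))))))))))))))))))) :=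
  Cl.node (nat_lit 0x20000c) (nat_lit 2) (by decide +kernel) (ClAll.succ (ClAll.succ ClAll.zero s20) s21)

def n23 : Cl (O (nat_lit 6)) (R (nat_lit 131281))
    (p (nat_lit 0x101) (nat_lit 0) (p (nat_lit 0x81) (nat_lit 1) (p (nat_lit 0xc1) (nat_lit 1) (p (nat_lit 0x119) (nat_lit 1) (p (nat_lit 0xd1) (nat_lit 0) (p (nat_lit 0x89) (nat_lit 0) (p (nat_lit 0x41) (nat_lit 0) (p (nat_lit 0x10b0a8989089a) (nat_lit 0) (p (nat_lit 0x8a8a0908881a) (nat_lit 0) (p (nat_lit 0x10a090888079a) (nat_lit 0) (p (nat_lit 0x89888807871a) (nat_lit 0) (p (nat_lit 0x8000080000000090787068a) (nat_lit 0) (p (nat_lit 0x10807068602) (nat_lit 0) (p (nat_lit 0x8786860582) (nat_lit 0) (p (nat_lit 0x10686058502) (nat_lit 0) (p (nat_lit 0x8605850482) (nat_lit 0) (p (nat_lit 0x160004) (nat_lit 0) (p (nat_lit 0x68512) (nat_lit 0) (p (nat_lit 0x58492) (nat_lit 0) (p (nat_lit 0x48412) (nat_lit 0) (p (nat_lit 0x50312)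 (nat_lit 0) (p (nat_lit 0x40292) (nat_lit 0) (p (nat_lit 0x30212) (nat_lit 0) (p (nat_lit 0x38112) (nat_lit 0) (p (nat_lit 0x28092) (nat_lit 0) (p (nat_lit 0x18012) (nat_lit 0) pn)))))))))))))))))))))))))) :=
  Cl.node (nat_lit 0x109) (nat_lit 2) (by decide +kernel) (ClAll.succ (ClAll.succ ClAll.zero n8) n9)

def n24 : Cl (O (nat_lit 6)) (R (nat_lit 131281))
    (p (nat_lit 0x101) (nat_lit 1) (p (nat_lit 0x81) (nat_lit 1) (p (nat_lit 0xc1) (nat_lit 1) (p (nat_lit 0x119) (nat_lit 1) (p (nat_lit 0xd1) (nat_lit 0) (p (nat_lit 0x89) (nat_lit 0) (p (nat_lit 0x41) (nat_lit 0) (p (nat_lit 0x10b0a8989089a) (nat_lit 0) (p (nat_lit 0x8a8a0908881a) (nat_lit 0) (p (nat_lit 0x10a090888079a) (nat_lit 0) (p (nat_lit 0x89888807871a) (nat_lit 0) (p (nat_lit 0x8000080000000090787068a) (nat_lit 0) (p (nat_lit 0x10807068602) (nat_lit 0) (p (nat_lit 0x8786860582) (nat_lit 0) (p (nat_lit 0x10686058502)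 (nat_lit 0) (p (nat_lit 0x8605850482) (nat_lit 0) (p (nat_lit 0x160004) (nat_lit 0) (p (nat_lit 0x68512) (nat_lit 0) (p (nat_lit 0x58492) (nat_lit 0) (p (nat_lit 0x48412) (nat_lit 0) (p (nat_lit 0x50312) (nat_lit 0) (p (nat_lit 0x40292) (nat_lit 0) (p (nat_lit 0x30212) (nat_lit 0) (p (nat_lit 0x38112) (nat_lit 0) (p (nat_lit 0x28092) (nat_lit 0) (p (nat_lit 0x18012) (nat_lit 0) pn)))))))))))))))))))))))))) :=
  Cl.node (nat_lit 0x20000c) (nat_lit 2) (by decide +kernel) (ClAll.succ (ClAll.succ ClAll.zero s29) s30)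

def n25 : Cl (O (nat_lit 6)) (R (nat_lit 131281))
    (p (nat_lit 0xc1) (nat_lit 0) (p (nat_lit 0x81) (nat_lit 1) (p (nat_lit 0x101) (nat_lit 1) (p (nat_lit 0x111) (nat_lit 0) (p (nat_lit 0xd1) (nat_lit 1) (p (nat_lit 0x89) (nat_lit 0) (p (nat_lit 0x41) (nat_lit 0) (p (nat_lit 0x10b0a8989089a) (nat_lit 0) (p (nat_lit 0x8a8a0908881a) (nat_lit 0) (p (nat_lit 0x10a090888079a) (nat_lit 0) (p (nat_lit 0x89888807871a) (nat_lit 0) (p (nat_lit 0x8000080000000090787068a) (nat_lit 0) (p (nat_lit 0x10807068602) (nat_lit 0) (p (nat_lit 0x8786860582) (nat_lit 0) (p (nat_lit 0x10686058502) (nat_lit 0) (p (nat_lit 0x8605850482) (nat_lit 0) (p (nat_lit 0x160004) (nat_lit 0) (p (nat_lit 0x68512) (nat_lit 0) (p (nat_lit 0x58492) (nat_lit 0) (p (nat_lit 0x48412) (nat_lit 0) (p (nat_lit 0x50312) (nat_lit 0) (p (nat_lit 0x40292) (nat_lit 0) (p (nat_lit 0x30212) (nat_lit 0) (p (nat_lit 0x38112) (nat_lit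 0) (p (nat_lit 0x28092) (nat_lit 0) (p (nat_lit 0x18012) (nat_lit 0) pn)))))))))))))))))))))))))) :=
  Cl.node (nat_lit 0x20000c) (nat_lit 2) (by decide +kernel) (ClAll.succ (ClAll.succ ClAll.zero s36) s37)

def n26 : Cl (O (nat_lit 6)) (R (nat_lit 131281))
    (p (nat_lit 0xd1) (nat_lit 1) (p (nat_lit 0x109) (nat_lit 1) (p (nat_lit 0x101) (nat_lit 0) (p (nat_lit 0x119) (nat_lit 0) (p (nat_lit 0xc9) (nat_lit 0) (p (nat_lit 0x89) (nat_lit 1) (p (nat_lit 0x41) (nat_lit 0) (p (nat_lit 0x10b0a8989089a) (nat_lit 0) (p (nat_lit 0x8a8a0908881a) (nat_lit 0) (p (nat_lit 0x10a090888079a) (nat_lit 0) (p (nat_lit 0x89888807871a) (nat_lit 0) (p (nat_lit 0x8000080000000090787068a) (nat_lit 0) (p (nat_lit 0x10807068602) (nat_lit 0) (p (nat_lit 0x8786860582) (nat_lit 0) (p (nat_lit 0x10686058502) (nat_lit 0) (p (nat_lit 0x8605850482) (nat_lit 0) (p (nat_lit 0x160004) (nat_lit 0) (p (nat_lit 0x68512)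 (nat_lit 0) (p (nat_lit 0x58492) (nat_lit 0) (p (nat_lit 0x48412) (nat_lit 0) (p (nat_lit 0x50312) (nat_lit 0) (p (nat_lit 0x40292) (nat_lit 0) (p (nat_lit 0x30212) (nat_lit 0) (p (nat_lit 0x38112) (nat_lit 0) (p (nat_lit 0x28092) (nat_lit 0) (p (nat_lit 0x18012) (nat_lit 0) pn)))))))))))))))))))))))))) :=
  Cl.node (nat_lit 0x20000c) (nat_lit 2) (by decide +kernel) (ClAll.succ (ClAll.succ ClAll.zero s45) s46)

def n27 : Cl (O (nat_lit 6)) (R (nat_lit 131281))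
    (p (nat_lit 0xd1) (nat_lit 0) (p (nat_lit 0xc1) (nat_lit 0) (p (nat_lit 0x101) (nat_lit 1) (p (nat_lit 0x119) (nat_lit 0) (p (nat_lit 0xc9) (nat_lit 0) (p (nat_lit 0x89) (nat_lit 1) (p (nat_lit 0x41) (nat_lit 0) (p (nat_lit 0x10b0a8989089a) (nat_lit 0) (p (nat_lit 0x8a8a0908881a) (nat_lit 0) (p (nat_lit 0x10a090888079a) (nat_lit 0) (p (nat_lit 0x89888807871a) (nat_lit 0) (p (nat_lit 0x8000080000000090787068a) (nat_lit 0) (p (nat_lit 0x10807068602) (nat_lit 0) (p (nat_lit 0x8786860582) (nat_lit 0) (p (nat_lit 0x10686058502) (nat_lit 0) (p (nat_lit 0x8605850482) (nat_lit 0) (p (nat_lit 0x160004) (nat_lit 0) (p (nat_lit 0x68512) (nat_lit 0) (p (nat_lit 0x58492) (nat_lit 0) (p (nat_lit 0x48412) (nat_lit 0) (p (nat_lit 0x50312) (nat_lit 0) (p (nat_lit 0x40292) (nat_lit 0) (p (nat_lit 0x30212) (nat_lit 0) (p (nat_lit 0x38112) (nat_lit 0) (p (nat_lit 0x28092) (nat_lit 0) (p (nat_lit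 0x18012) (nat_lit 0) pn)))))))))))))))))))))))))) :=
  Cl.node (nat_lit 0x20000c) (nat_lit 2) (by decide +kernel) (ClAll.succ (ClAll.succ ClAll.zero s47) s48)

def n28 : Cl (O (nat_lit 6)) (R (nat_lit 131281))
    (p (nat_lit 0x111) (nat_lit 1) (p (nat_lit 0xd1) (nat_lit 1) (p (nat_lit 0xc1) (nat_lit 0) (p (nat_lit 0x119) (nat_lit 1) (p (nat_lit 0xc9) (nat_lit 0) (p (nat_lit 0x89) (nat_lit 1) (p (nat_lit 0x41) (nat_lit 0) (p (nat_lit 0x10b0a8989089a) (nat_lit 0) (p (nat_lit 0x8a8a0908881a) (nat_lit 0) (p (nat_lit 0x10a090888079a) (nat_lit 0) (p (nat_lit 0x89888807871a) (nat_lit 0) (p (nat_lit 0x8000080000000090787068a) (nat_lit 0) (p (nat_lit 0x10807068602) (nat_lit 0) (p (nat_lit 0x8786860582) (nat_lit 0) (p (nat_lit 0x10686058502) (nat_lit 0) (p (nat_lit 0x8605850482) (nat_lit 0) (p (nat_lit 0x160004) (nat_lit 0) (p (nat_lit 0x68512) (nat_lit 0) (p (nat_lit 0x58492) (nat_lit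 0) (p (nat_lit 0x48412) (nat_lit 0) (p (nat_lit 0x50312) (nat_lit 0) (p (nat_lit 0x40292) (nat_lit 0) (p (nat_lit 0x30212) (nat_lit 0) (p (nat_lit 0x38112) (nat_lit 0) (p (nat_lit 0x28092) (nat_lit 0) (p (nat_lit 0x18012) (nat_lit 0) pn)))))))))))))))))))))))))) :=
  Cl.node (nat_lit 0x20000c) (nat_lit 2) (by decide +kernel) (ClAll.succ (ClAll.succ ClAll.zero s53) s54)

def n29 : Cl (O (nat_lit 6)) (R (nat_lit 131281))
    (p (nat_lit 0x111) (nat_lit 1) (p (nat_lit 0x101) (nat_lit 0) (p (nat_lit 0xc1) (nat_lit 1) (p (nat_lit 0x119) (nat_lit 1) (p (nat_lit 0xc9) (nat_lit 0) (p (nat_lit 0x89) (nat_lit 1) (p (nat_lit 0x41) (nat_lit 0) (p (nat_lit 0x10b0a8989089a) (nat_lit 0) (p (nat_lit 0x8a8a0908881a) (nat_lit 0) (p (nat_lit 0x10a090888079a) (nat_lit 0) (p (nat_lit 0x89888807871a) (nat_lit 0) (p (nat_lit 0x8000080000000090787068a) (nat_lit 0) (p (nat_lit 0x10807068602) (nat_lit 0)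 (p (nat_lit 0x8786860582) (nat_lit 0) (p (nat_lit 0x10686058502) (nat_lit 0) (p (nat_lit 0x8605850482) (nat_lit 0) (p (nat_lit 0x160004) (nat_lit 0) (p (nat_lit 0x68512) (nat_lit 0) (p (nat_lit 0x58492) (nat_lit 0) (p (nat_lit 0x48412) (nat_lit 0) (p (nat_lit 0x50312) (nat_lit 0) (p (nat_lit 0x40292) (nat_lit 0) (p (nat_lit 0x30212) (nat_lit 0) (p (nat_lit 0x38112) (nat_lit 0) (p (nat_lit 0x28092) (nat_lit 0) (p (nat_lit 0x18012) (nat_lit 0) pn)))))))))))))))))))))))))) :=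
  Cl.node (nat_lit 0x20000c) (nat_lit 2) (by decide +kernel) (ClAll.succ (ClAll.succ ClAll.zero s56) s57)

def n30 : Cl (O (nat_lit 6)) (R (nat_lit 131281))
    (p (nat_lit 0x89) (nat_lit 0) (p (nat_lit 0x109) (nat_lit 1) (p (nat_lit 0x101) (nat_lit 0) (p (nat_lit 0x119) (nat_lit 0) (p (nat_lit 0xd1) (nat_lit 0) (p (nat_lit 0x81) (nat_lit 0) (p (nat_lit 0x41) (nat_lit 1) (p (nat_lit 0x10b0a8989089a) (nat_lit 0) (p (nat_lit 0x8a8a0908881a) (nat_lit 0) (p (nat_lit 0x10a090888079a) (nat_lit 0) (p (nat_lit 0x89888807871a) (nat_lit 0) (p (nat_lit 0x8000080000000090787068a) (nat_lit 0) (p (nat_lit 0x10807068602) (nat_lit 0) (p (nat_lit 0x8786860582) (nat_lit 0) (p (nat_lit 0x10686058502) (nat_lit 0) (p (nat_lit 0x8605850482) (nat_lit 0) (p (nat_lit 0x160004) (nat_lit 0) (p (nat_lit 0x68512) (nat_lit 0) (p (nat_lit 0x58492) (nat_lit 0) (p (nat_lit 0x48412) (nat_lit 0) (p (nat_lit 0x50312)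 (nat_lit 0) (p (nat_lit 0x40292) (nat_lit 0) (p (nat_lit 0x30212) (nat_lit 0) (p (nat_lit 0x38112) (nat_lit 0) (p (nat_lit 0x28092) (nat_lit 0) (p (nat_lit 0x18012) (nat_lit 0) pn)))))))))))))))))))))))))) :=
  Cl.node (nat_lit 0x20000c) (nat_lit 2) (by decide +kernel) (ClAll.succ (ClAll.succ ClAll.zero s62) s63)

def n31 : Cl (O (nat_lit 6)) (R (nat_lit 131281))
    (p (nat_lit 0x89) (nat_lit 1) (p (nat_lit 0x109) (nat_lit 1) (p (nat_lit 0x101) (nat_lit 0) (p (nat_lit 0x119) (nat_lit 0) (p (nat_lit 0xd1) (nat_lit 0) (p (nat_lit 0x81) (nat_lit 0) (p (nat_lit 0x41) (nat_lit 1) (p (nat_lit 0x10b0a8989089a) (nat_lit 0) (p (nat_lit 0x8a8a0908881a) (nat_lit 0) (p (nat_lit 0x10a090888079a) (nat_lit 0) (p (nat_lit 0x89888807871a) (nat_lit 0) (p (nat_lit 0x8000080000000090787068a) (nat_lit 0) (p (nat_lit 0x10807068602) (nat_lit 0) (p (nat_lit 0x8786860582) (nat_lit 0) (p (nat_lit 0x10686058502)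 (nat_lit 0) (p (nat_lit 0x8605850482) (nat_lit 0) (p (nat_lit 0x160004) (nat_lit 0) (p (nat_lit 0x68512) (nat_lit 0) (p (nat_lit 0x58492) (nat_lit 0) (p (nat_lit 0x48412) (nat_lit 0) (p (nat_lit 0x50312) (nat_lit 0) (p (nat_lit 0x40292) (nat_lit 0) (p (nat_lit 0x30212) (nat_lit 0) (p (nat_lit 0x38112) (nat_lit 0) (p (nat_lit 0x28092) (nat_lit 0) (p (nat_lit 0x18012) (nat_lit 0) pn)))))))))))))))))))))))))) :=
  Cl.node (nat_lit 0xc9) (nat_lit 2) (by decide +kernel) (ClAll.succ (ClAll.succ ClAll.zero n10) s66)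

def n32 : Cl (O (nat_lit 6)) (R (nat_lit 131281))
    (p (nat_lit 0x89) (nat_lit 1) (p (nat_lit 0xc1) (nat_lit 0) (p (nat_lit 0x101) (nat_lit 1) (p (nat_lit 0x119) (nat_lit 0) (p (nat_lit 0xd1) (nat_lit 0) (p (nat_lit 0x81) (nat_lit 0) (p (nat_lit 0x41) (nat_lit 1) (p (nat_lit 0x10b0a8989089a) (nat_lit 0) (p (nat_lit 0x8a8a0908881a) (nat_lit 0) (p (nat_lit 0x10a090888079a) (nat_lit 0) (p (nat_lit 0x89888807871a) (nat_lit 0) (p (nat_lit 0x8000080000000090787068a) (nat_lit 0) (p (nat_lit 0x10807068602) (nat_lit 0) (p (nat_lit 0x8786860582) (nat_lit 0) (p (nat_lit 0x10686058502) (nat_lit 0) (p (nat_lit 0x8605850482) (nat_lit 0) (p (nat_lit 0x160004) (nat_lit 0) (p (nat_lit 0x68512) (nat_lit 0) (p (nat_lit 0x58492) (nat_lit 0) (p (nat_lit 0x48412) (nat_lit 0) (p (nat_lit 0x50312) (nat_lit 0) (p (nat_lit 0x40292) (nat_lit 0) (p (nat_lit 0x30212) (nat_lit 0) (p (nat_lit 0x38112) (nat_lit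 0) (p (nat_lit 0x28092) (nat_lit 0) (p (nat_lit 0x18012) (nat_lit 0) pn)))))))))))))))))))))))))) :=
  Cl.node (nat_lit 0xc9) (nat_lit 2) (by decide +kernel) (ClAll.succ (ClAll.succ ClAll.zero n11) s70)

def n33 : Cl (O (nat_lit 6)) (R (nat_lit 131281))
    (p (nat_lit 0x89) (nat_lit 1) (p (nat_lit 0xc9) (nat_lit 1) (p (nat_lit 0xc1) (nat_lit 0) (p (nat_lit 0x119) (nat_lit 1) (p (nat_lit 0xd1) (nat_lit 0) (p (nat_lit 0x81) (nat_lit 0) (p (nat_lit 0x41) (nat_lit 1) (p (nat_lit 0x10b0a8989089a) (nat_lit 0) (p (nat_lit 0x8a8a0908881a) (nat_lit 0) (p (nat_lit 0x10a090888079a) (nat_lit 0) (p (nat_lit 0x89888807871a) (nat_lit 0) (p (nat_lit 0x8000080000000090787068a) (nat_lit 0) (p (nat_lit 0x10807068602) (nat_lit 0) (p (nat_lit 0x8786860582) (nat_lit 0) (p (nat_lit 0x10686058502) (nat_lit 0) (p (nat_lit 0x8605850482) (nat_lit 0) (p (nat_lit 0x160004) (nat_lit 0) (p (nat_lit 0x68512)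 (nat_lit 0) (p (nat_lit 0x58492) (nat_lit 0) (p (nat_lit 0x48412) (nat_lit 0) (p (nat_lit 0x50312) (nat_lit 0) (p (nat_lit 0x40292) (nat_lit 0) (p (nat_lit 0x30212) (nat_lit 0) (p (nat_lit 0x38112) (nat_lit 0) (p (nat_lit 0x28092) (nat_lit 0) (p (nat_lit 0x18012) (nat_lit 0) pn)))))))))))))))))))))))))) :=
  Cl.node (nat_lit 0x109) (nat_lit 2) (by decide +kernel) (ClAll.succ (ClAll.succ ClAll.zero n12) n13)

def n34 : Cl (O (nat_lit 6)) (R (nat_lit 131281))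
    (p (nat_lit 0x89) (nat_lit 1) (p (nat_lit 0x101) (nat_lit 0) (p (nat_lit 0xc1) (nat_lit 1) (p (nat_lit 0x119) (nat_lit 1) (p (nat_lit 0xd1) (nat_lit 0) (p (nat_lit 0x81) (nat_lit 0) (p (nat_lit 0x41) (nat_lit 1) (p (nat_lit 0x10b0a8989089a) (nat_lit 0) (p (nat_lit 0x8a8a0908881a) (nat_lit 0) (p (nat_lit 0x10a090888079a) (nat_lit 0) (p (nat_lit 0x89888807871a) (nat_lit 0) (p (nat_lit 0x8000080000000090787068a) (nat_lit 0) (p (nat_lit 0x10807068602) (nat_lit 0) (p (nat_lit 0x8786860582) (nat_lit 0) (p (nat_lit 0x10686058502) (nat_lit 0) (p (nat_lit 0x8605850482) (nat_lit 0) (p (nat_lit 0x160004) (nat_lit 0) (p (nat_lit 0x68512) (nat_lit 0) (p (nat_lit 0x58492) (nat_lit 0) (p (nat_lit 0x48412) (nat_lit 0) (p (nat_lit 0x50312) (nat_lit 0) (p (nat_lit 0x40292) (nat_lit 0) (p (nat_lit 0x30212) (nat_lit 0) (p (nat_lit 0x38112) (nat_lit 0) (p (nat_lit 0x28092) (nat_lit 0) (p (nat_lit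 0x18012) (nat_lit 0) pn)))))))))))))))))))))))))) :=
  Cl.node (nat_lit 0x109) (nat_lit 2) (by decide +kernel) (ClAll.succ (ClAll.succ ClAll.zero n14) n15)

def n35 : Cl (O (nat_lit 6)) (R (nat_lit 131281))
    (p (nat_lit 0x89) (nat_lit 1) (p (nat_lit 0x101) (nat_lit 1) (p (nat_lit 0xc1) (nat_lit 1) (p (nat_lit 0x119) (nat_lit 1) (p (nat_lit 0xd1) (nat_lit 0) (p (nat_lit 0x81) (nat_lit 0) (p (nat_lit 0x41) (nat_lit 1) (p (nat_lit 0x10b0a8989089a) (nat_lit 0) (p (nat_lit 0x8a8a0908881a) (nat_lit 0) (p (nat_lit 0x10a090888079a) (nat_lit 0) (p (nat_lit 0x89888807871a) (nat_lit 0) (p (nat_lit 0x8000080000000090787068a) (nat_lit 0) (p (nat_lit 0x10807068602) (nat_lit 0) (p (nat_lit 0x8786860582) (nat_lit 0) (p (nat_lit 0x10686058502) (nat_lit 0) (p (nat_lit 0x8605850482) (nat_lit 0) (p (nat_lit 0x160004) (nat_lit 0) (p (nat_lit 0x68512) (nat_lit 0) (p (nat_lit 0x58492) (nat_lit 0)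 (p (nat_lit 0x48412) (nat_lit 0) (p (nat_lit 0x50312) (nat_lit 0) (p (nat_lit 0x40292) (nat_lit 0) (p (nat_lit 0x30212) (nat_lit 0) (p (nat_lit 0x38112) (nat_lit 0) (p (nat_lit 0x28092) (nat_lit 0) (p (nat_lit 0x18012) (nat_lit 0) pn)))))))))))))))))))))))))) :=
  Cl.node (nat_lit 0x20000c) (nat_lit 2) (by decide +kernel) (ClAll.succ (ClAll.succ ClAll.zero s85) s86)

def n36 : Cl (O (nat_lit 6)) (R (nat_lit 131281))
    (p (nat_lit 0x89) (nat_lit 1) (p (nat_lit 0x109) (nat_lit 1) (p (nat_lit 0x101) (nat_lit 0) (p (nat_lit 0x111) (nat_lit 0) (p (nat_lit 0xd1) (nat_lit 1) (p (nat_lit 0x81) (nat_lit 0) (p (nat_lit 0x41) (nat_lit 1) (p (nat_lit 0x10b0a8989089a) (nat_lit 0) (p (nat_lit 0x8a8a0908881a) (nat_lit 0) (p (nat_lit 0x10a090888079a) (nat_lit 0) (p (nat_lit 0x89888807871a) (nat_lit 0) (p (nat_lit 0x8000080000000090787068a) (nat_lit 0) (p (nat_lit 0x10807068602) (nat_lit 0) (p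 (nat_lit 0x8786860582) (nat_lit 0) (p (nat_lit 0x10686058502) (nat_lit 0) (p (nat_lit 0x8605850482) (nat_lit 0) (p (nat_lit 0x160004) (nat_lit 0) (p (nat_lit 0x68512) (nat_lit 0) (p (nat_lit 0x58492) (nat_lit 0) (p (nat_lit 0x48412) (nat_lit 0) (p (nat_lit 0x50312) (nat_lit 0) (p (nat_lit 0x40292) (nat_lit 0) (p (nat_lit 0x30212) (nat_lit 0) (p (nat_lit 0x38112) (nat_lit 0) (p (nat_lit 0x28092) (nat_lit 0) (p (nat_lit 0x18012) (nat_lit 0) pn)))))))))))))))))))))))))) :=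
  Cl.node (nat_lit 0xc9) (nat_lit 2) (by decide +kernel) (ClAll.succ (ClAll.succ ClAll.zero n16) s91)

def n37 : Cl (O (nat_lit 6)) (R (nat_lit 131281))
    (p (nat_lit 0x111) (nat_lit 1) (p (nat_lit 0xd1) (nat_lit 1) (p (nat_lit 0xc9) (nat_lit 0) (p (nat_lit 0x119) (nat_lit 1) (p (nat_lit 0xc1) (nat_lit 0) (p (nat_lit 0x81) (nat_lit 1) (p (nat_lit 0x41) (nat_lit 1) (p (nat_lit 0x10b0a8989089a) (nat_lit 0) (p (nat_lit 0x8a8a0908881a) (nat_lit 0) (p (nat_lit 0x10a090888079a) (nat_lit 0) (p (nat_lit 0x89888807871a) (nat_lit 0) (p (nat_lit 0x8000080000000090787068a) (nat_lit 0) (p (nat_lit 0x10807068602) (nat_lit 0) (p (nat_lit 0x8786860582) (nat_lit 0) (p (nat_lit 0x10686058502) (nat_lit 0) (p (nat_lit 0x8605850482) (nat_lit 0) (p (nat_lit 0x160004) (nat_lit 0) (p (nat_lit 0x68512) (nat_lit 0) (p (nat_lit 0x58492) (nat_lit 0) (p (nat_lit 0x48412) (nat_lit 0) (p (nat_lit 0x50312)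 (nat_lit 0) (p (nat_lit 0x40292) (nat_lit 0) (p (nat_lit 0x30212) (nat_lit 0) (p (nat_lit 0x38112) (nat_lit 0) (p (nat_lit 0x28092) (nat_lit 0) (p (nat_lit 0x18012) (nat_lit 0) pn)))))))))))))))))))))))))) :=
  Cl.node (nat_lit 0x20000c) (nat_lit 2) (by decide +kernel) (ClAll.succ (ClAll.succ ClAll.zero s102) s103)

def n38 : Cl (O (nat_lit 6)) (R (nat_lit 131281))
    (p (nat_lit 0x111) (nat_lit 1) (p (nat_lit 0x109) (nat_lit 0) (p (nat_lit 0xc9) (nat_lit 1) (p (nat_lit 0x119) (nat_lit 1) (p (nat_lit 0xc1) (nat_lit 0) (p (nat_lit 0x81) (nat_lit 1) (p (nat_lit 0x41) (nat_lit 1) (p (nat_lit 0x10b0a8989089a) (nat_lit 0) (p (nat_lit 0x8a8a0908881a) (nat_lit 0) (p (nat_lit 0x10a090888079a) (nat_lit 0) (p (nat_lit 0x89888807871a) (nat_lit 0) (p (nat_lit 0x8000080000000090787068a) (nat_lit 0) (p (nat_lit 0x10807068602) (nat_lit 0) (p (nat_lit 0x8786860582) (nat_lit 0) (p (nat_lit 0x10686058502)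 (nat_lit 0) (p (nat_lit 0x8605850482) (nat_lit 0) (p (nat_lit 0x160004) (nat_lit 0) (p (nat_lit 0x68512) (nat_lit 0) (p (nat_lit 0x58492) (nat_lit 0) (p (nat_lit 0x48412) (nat_lit 0) (p (nat_lit 0x50312) (nat_lit 0) (p (nat_lit 0x40292) (nat_lit 0) (p (nat_lit 0x30212) (nat_lit 0) (p (nat_lit 0x38112) (nat_lit 0) (p (nat_lit 0x28092) (nat_lit 0) (p (nat_lit 0x18012) (nat_lit 0) pn)))))))))))))))))))))))))) :=
  Cl.node (nat_lit 0x20000c) (nat_lit 2) (by decide +kernel) (ClAll.succ (ClAll.succ ClAll.zero s105) s106)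

def n39 : Cl (O (nat_lit 6)) (R (nat_lit 131281))
    (p (nat_lit 0x109) (nat_lit 1) (p (nat_lit 0x101) (nat_lit 0) (p (nat_lit 0x119) (nat_lit 0) (p (nat_lit 0xd1) (nat_lit 0) (p (nat_lit 0x89) (nat_lit 0) (p (nat_lit 0x41) (nat_lit 0) (p (nat_lit 0x10b0a8989089a) (nat_lit 0) (p (nat_lit 0x8a8a0908881a) (nat_lit 0) (p (nat_lit 0x10a090888079a) (nat_lit 0) (p (nat_lit 0x89888807871a) (nat_lit 0) (p (nat_lit 0x8000080000000090787068a) (nat_lit 0) (p (nat_lit 0x10807068602) (nat_lit 0) (p (nat_lit 0x8786860582) (nat_lit 0) (p (nat_lit 0x10686058502) (nat_lit 0) (p (nat_lit 0x8605850482) (nat_lit 0) (p (nat_lit 0x160004) (nat_lit 0) (p (nat_lit 0x68512) (nat_lit 0) (p (nat_lit 0x58492) (nat_lit 0) (p (nat_lit 0x48412) (nat_lit 0) (p (nat_lit 0x50312) (nat_lit 0) (p (nat_lit 0x40292) (nat_lit 0) (p (nat_lit 0x30212) (nat_lit 0) (p (nat_lit 0x38112) (nat_lit 0) (p (nat_lit 0x28092)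 (nat_lit 0) (p (nat_lit 0x18012) (nat_lit 0) pn))))))))))))))))))))))))) :=
  Cl.node (nat_lit 0xc9) (nat_lit 2) (by decide +kernel) (ClAll.succ (ClAll.succ ClAll.zero s1) n17)

def n40 : Cl (O (nat_lit 6)) (R (nat_lit 131281))
    (p (nat_lit 0x81) (nat_lit 0) (p (nat_lit 0x101) (nat_lit 1) (p (nat_lit 0x119) (nat_lit 0) (p (nat_lit 0xd1) (nat_lit 0) (p (nat_lit 0x89) (nat_lit 0) (p (nat_lit 0x41) (nat_lit 0) (p (nat_lit 0x10b0a8989089a) (nat_lit 0) (p (nat_lit 0x8a8a0908881a) (nat_lit 0) (p (nat_lit 0x10a090888079a) (nat_lit 0) (p (nat_lit 0x89888807871a) (nat_lit 0) (p (nat_lit 0x8000080000000090787068a) (nat_lit 0) (p (nat_lit 0x10807068602) (nat_lit 0) (p (nat_lit 0x8786860582) (nat_lit 0) (p (nat_lit 0x10686058502) (nat_lit 0) (p (nat_lit 0x8605850482) (nat_lit 0) (p (nat_lit 0x160004) (nat_lit 0) (p (nat_lit 0x68512) (nat_lit 0) (p (nat_lit 0x58492) (nat_lit 0) (p (nat_lit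 0x48412) (nat_lit 0) (p (nat_lit 0x50312) (nat_lit 0) (p (nat_lit 0x40292) (nat_lit 0) (p (nat_lit 0x30212) (nat_lit 0) (p (nat_lit 0x38112) (nat_lit 0) (p (nat_lit 0x28092) (nat_lit 0) (p (nat_lit 0x18012) (nat_lit 0) pn))))))))))))))))))))))))) :=
  Cl.node (nat_lit 0xc9) (nat_lit 2) (by decide +kernel) (ClAll.succ (ClAll.succ ClAll.zero n18) n19)

def n41 : Cl (O (nat_lit 6)) (R (nat_lit 131281))
    (p (nat_lit 0x81) (nat_lit 1) (p (nat_lit 0x101) (nat_lit 1) (p (nat_lit 0x119) (nat_lit 0) (p (nat_lit 0xd1) (nat_lit 0) (p (nat_lit 0x89) (nat_lit 0) (p (nat_lit 0x41) (nat_lit 0) (p (nat_lit 0x10b0a8989089a) (nat_lit 0) (p (nat_lit 0x8a8a0908881a) (nat_lit 0) (p (nat_lit 0x10a090888079a) (nat_lit 0) (p (nat_lit 0x89888807871a) (nat_lit 0) (p (nat_lit 0x8000080000000090787068a) (nat_lit 0) (p (nat_lit 0x10807068602) (nat_lit 0) (p (nat_lit 0x8786860582) (nat_lit 0) (p (nat_lit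 0x10686058502) (nat_lit 0) (p (nat_lit 0x8605850482) (nat_lit 0) (p (nat_lit 0x160004) (nat_lit 0) (p (nat_lit 0x68512) (nat_lit 0) (p (nat_lit 0x58492) (nat_lit 0) (p (nat_lit 0x48412) (nat_lit 0) (p (nat_lit 0x50312) (nat_lit 0) (p (nat_lit 0x40292) (nat_lit 0) (p (nat_lit 0x30212) (nat_lit 0) (p (nat_lit 0x38112) (nat_lit 0) (p (nat_lit 0x28092) (nat_lit 0) (p (nat_lit 0x18012) (nat_lit 0) pn))))))))))))))))))))))))) :=
  Cl.node (nat_lit 0xc1) (nat_lit 2) (by decide +kernel) (ClAll.succ (ClAll.succ ClAll.zero n20) s14)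

def n42 : Cl (O (nat_lit 6)) (R (nat_lit 131281))
    (p (nat_lit 0xc9) (nat_lit 1) (p (nat_lit 0xc1) (nat_lit 0) (p (nat_lit 0x119) (nat_lit 1) (p (nat_lit 0xd1) (nat_lit 0) (p (nat_lit 0x89) (nat_lit 0) (p (nat_lit 0x41) (nat_lit 0) (p (nat_lit 0x10b0a8989089a) (nat_lit 0) (p (nat_lit 0x8a8a0908881a) (nat_lit 0) (p (nat_lit 0x10a090888079a) (nat_lit 0) (p (nat_lit 0x89888807871a) (nat_lit 0) (p (nat_lit 0x8000080000000090787068a) (nat_lit 0) (p (nat_lit 0x10807068602) (nat_lit 0) (p (nat_lit 0x8786860582) (nat_lit 0) (p (nat_lit 0x10686058502) (nat_lit 0) (p (nat_lit 0x8605850482) (nat_lit 0) (p (nat_lit 0x160004) (nat_lit 0) (p (nat_lit 0x68512) (nat_lit 0) (p (nat_lit 0x58492) (nat_lit 0) (p (nat_lit 0x48412) (nat_lit 0) (p (nat_lit 0x50312) (nat_lit 0) (p (nat_lit 0x40292) (nat_lit 0) (p (nat_lit 0x30212) (nat_lit 0) (p (nat_lit 0x38112) (nat_lit 0) (p (nat_lit 0x28092) (nat_lit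 0) (p (nat_lit 0x18012) (nat_lit 0) pn))))))))))))))))))))))))) :=
  Cl.node (nat_lit 0x109) (nat_lit 2) (by decide +kernel) (ClAll.succ (ClAll.succ ClAll.zero s16) n21)

def n43 : Cl (O (nat_lit 6)) (R (nat_lit 131281))
    (p (nat_lit 0x81) (nat_lit 0) (p (nat_lit 0xc1) (nat_lit 1) (p (nat_lit 0x119) (nat_lit 1) (p (nat_lit 0xd1) (nat_lit 0) (p (nat_lit 0x89) (nat_lit 0) (p (nat_lit 0x41) (nat_lit 0) (p (nat_lit 0x10b0a8989089a) (nat_lit 0) (p (nat_lit 0x8a8a0908881a) (nat_lit 0) (p (nat_lit 0x10a090888079a) (nat_lit 0) (p (nat_lit 0x89888807871a) (nat_lit 0) (p (nat_lit 0x8000080000000090787068a) (nat_lit 0) (p (nat_lit 0x10807068602) (nat_lit 0) (p (nat_lit 0x8786860582) (nat_lit 0) (p (nat_lit 0x10686058502) (nat_lit 0) (p (nat_lit 0x8605850482) (nat_lit 0) (p (nat_lit 0x160004) (nat_lit 0) (p (nat_lit 0x68512) (nat_lit 0) (p (nat_lit 0x58492) (nat_lit 0) (p (nat_lit 0x48412)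 (nat_lit 0) (p (nat_lit 0x50312) (nat_lit 0) (p (nat_lit 0x40292) (nat_lit 0) (p (nat_lit 0x30212) (nat_lit 0) (p (nat_lit 0x38112) (nat_lit 0) (p (nat_lit 0x28092) (nat_lit 0) (p (nat_lit 0x18012) (nat_lit 0) pn))))))))))))))))))))))))) :=
  Cl.node (nat_lit 0x109) (nat_lit 2) (by decide +kernel) (ClAll.succ (ClAll.succ ClAll.zero s19) n22)

def n44 : Cl (O (nat_lit 6)) (R (nat_lit 131281))
    (p (nat_lit 0x81) (nat_lit 1) (p (nat_lit 0xc1) (nat_lit 1) (p (nat_lit 0x119) (nat_lit 1) (p (nat_lit 0xd1) (nat_lit 0) (p (nat_lit 0x89) (nat_lit 0) (p (nat_lit 0x41) (nat_lit 0) (p (nat_lit 0x10b0a8989089a) (nat_lit 0) (p (nat_lit 0x8a8a0908881a) (nat_lit 0) (p (nat_lit 0x10a090888079a) (nat_lit 0) (p (nat_lit 0x89888807871a) (nat_lit 0) (p (nat_lit 0x8000080000000090787068a) (nat_lit 0) (p (nat_lit 0x10807068602) (nat_lit 0) (p (nat_lit 0x8786860582) (nat_lit 0) (p (nat_lit 0x10686058502)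 (nat_lit 0) (p (nat_lit 0x8605850482) (nat_lit 0) (p (nat_lit 0x160004) (nat_lit 0) (p (nat_lit 0x68512) (nat_lit 0) (p (nat_lit 0x58492) (nat_lit 0) (p (nat_lit 0x48412) (nat_lit 0) (p (nat_lit 0x50312) (nat_lit 0) (p (nat_lit 0x40292) (nat_lit 0) (p (nat_lit 0x30212) (nat_lit 0) (p (nat_lit 0x38112) (nat_lit 0) (p (nat_lit 0x28092) (nat_lit 0) (p (nat_lit 0x18012) (nat_lit 0) pn))))))))))))))))))))))))) :=
  Cl.node (nat_lit 0x101) (nat_lit 2) (by decide +kernel) (ClAll.succ (ClAll.succ ClAll.zero n23) n24)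

def n45 : Cl (O (nat_lit 6)) (R (nat_lit 131281))
    (p (nat_lit 0x109) (nat_lit 1) (p (nat_lit 0x101) (nat_lit 0) (p (nat_lit 0x111) (nat_lit 0) (p (nat_lit 0xd1) (nat_lit 1) (p (nat_lit 0x89) (nat_lit 0) (p (nat_lit 0x41) (nat_lit 0) (p (nat_lit 0x10b0a8989089a) (nat_lit 0) (p (nat_lit 0x8a8a0908881a) (nat_lit 0) (p (nat_lit 0x10a090888079a) (nat_lit 0) (p (nat_lit 0x89888807871a) (nat_lit 0) (p (nat_lit 0x8000080000000090787068a) (nat_lit 0) (p (nat_lit 0x10807068602) (nat_lit 0) (p (nat_lit 0x8786860582) (nat_lit 0) (p (nat_lit 0x10686058502) (nat_lit 0) (p (nat_lit 0x8605850482) (nat_lit 0) (p (nat_lit 0x160004) (nat_lit 0) (p (nat_lit 0x68512) (nat_lit 0) (p (nat_lit 0x58492) (nat_lit 0) (p (nat_lit 0x48412) (nat_lit 0) (p (nat_lit 0x50312) (nat_lit 0) (p (nat_lit 0x40292) (nat_lit 0) (p (nat_lit 0x30212) (nat_lit 0) (p (nat_lit 0x38112) (nat_lit 0) (p (nat_lit 0x28092)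 (nat_lit 0) (p (nat_lit 0x18012) (nat_lit 0) pn))))))))))))))))))))))))) :=
  Cl.node (nat_lit 0x20000c) (nat_lit 2) (by decide +kernel) (ClAll.succ (ClAll.succ ClAll.zero s32) s33)

def n46 : Cl (O (nat_lit 6)) (R (nat_lit 131281))
    (p (nat_lit 0x81) (nat_lit 0) (p (nat_lit 0x101) (nat_lit 1) (p (nat_lit 0x111) (nat_lit 0) (p (nat_lit 0xd1) (nat_lit 1) (p (nat_lit 0x89) (nat_lit 0) (p (nat_lit 0x41) (nat_lit 0) (p (nat_lit 0x10b0a8989089a) (nat_lit 0) (p (nat_lit 0x8a8a0908881a) (nat_lit 0) (p (nat_lit 0x10a090888079a) (nat_lit 0) (p (nat_lit 0x89888807871a) (nat_lit 0) (p (nat_lit 0x8000080000000090787068a) (nat_lit 0) (p (nat_lit 0x10807068602) (nat_lit 0) (p (nat_lit 0x8786860582) (nat_lit 0) (p (nat_lit 0x10686058502) (nat_lit 0) (p (nat_lit 0x8605850482) (nat_lit 0) (p (nat_lit 0x160004) (nat_lit 0) (p (nat_lit 0x68512) (nat_lit 0) (p (nat_lit 0x58492) (nat_lit 0) (p (nat_lit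 0x48412) (nat_lit 0) (p (nat_lit 0x50312) (nat_lit 0) (p (nat_lit 0x40292) (nat_lit 0) (p (nat_lit 0x30212) (nat_lit 0) (p (nat_lit 0x38112) (nat_lit 0) (p (nat_lit 0x28092) (nat_lit 0) (p (nat_lit 0x18012) (nat_lit 0) pn))))))))))))))))))))))))) :=
  Cl.node (nat_lit 0x20000c) (nat_lit 2) (by decide +kernel) (ClAll.succ (ClAll.succ ClAll.zero s34) s35)

def n47 : Cl (O (nat_lit 6)) (R (nat_lit 131281))
    (p (nat_lit 0x81) (nat_lit 1) (p (nat_lit 0x101) (nat_lit 1) (p (nat_lit 0x111) (nat_lit 0) (p (nat_lit 0xd1) (nat_lit 1) (p (nat_lit 0x89) (nat_lit 0) (p (nat_lit 0x41) (nat_lit 0) (p (nat_lit 0x10b0a8989089a) (nat_lit 0) (p (nat_lit 0x8a8a0908881a) (nat_lit 0) (p (nat_lit 0x10a090888079a) (nat_lit 0) (p (nat_lit 0x89888807871a) (nat_lit 0) (p (nat_lit 0x8000080000000090787068a) (nat_lit 0) (p (nat_lit 0x10807068602) (nat_lit 0) (p (nat_lit 0x8786860582) (nat_lit 0) (p (nat_lit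 0x10686058502) (nat_lit 0) (p (nat_lit 0x8605850482) (nat_lit 0) (p (nat_lit 0x160004) (nat_lit 0) (p (nat_lit 0x68512) (nat_lit 0) (p (nat_lit 0x58492) (nat_lit 0) (p (nat_lit 0x48412) (nat_lit 0) (p (nat_lit 0x50312) (nat_lit 0) (p (nat_lit 0x40292) (nat_lit 0) (p (nat_lit 0x30212) (nat_lit 0) (p (nat_lit 0x38112) (nat_lit 0) (p (nat_lit 0x28092) (nat_lit 0) (p (nat_lit 0x18012) (nat_lit 0) pn))))))))))))))))))))))))) :=
  Cl.node (nat_lit 0xc1) (nat_lit 2) (by decide +kernel) (ClAll.succ (ClAll.succ ClAll.zero n25) s38)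

def n48 : Cl (O (nat_lit 6)) (R (nat_lit 131281))
    (p (nat_lit 0xc1) (nat_lit 1) (p (nat_lit 0x81) (nat_lit 1) (p (nat_lit 0x111) (nat_lit 1) (p (nat_lit 0xd1) (nat_lit 1) (p (nat_lit 0x89) (nat_lit 0) (p (nat_lit 0x41) (nat_lit 0) (p (nat_lit 0x10b0a8989089a) (nat_lit 0) (p (nat_lit 0x8a8a0908881a) (nat_lit 0) (p (nat_lit 0x10a090888079a) (nat_lit 0) (p (nat_lit 0x89888807871a) (nat_lit 0) (p (nat_lit 0x8000080000000090787068a) (nat_lit 0) (p (nat_lit 0x10807068602) (nat_lit 0) (p (nat_lit 0x8786860582) (nat_lit 0) (p (nat_lit 0x10686058502) (nat_lit 0) (p (nat_lit 0x8605850482) (nat_lit 0) (p (nat_lit 0x160004) (nat_lit 0) (p (nat_lit 0x68512) (nat_lit 0) (p (nat_lit 0x58492) (nat_lit 0) (p (nat_lit 0x48412) (nat_lit 0) (p (nat_lit 0x50312) (nat_lit 0) (p (nat_lit 0x40292) (nat_lit 0) (p (nat_lit 0x30212) (nat_lit 0) (p (nat_lit 0x38112) (nat_lit 0) (p (nat_lit 0x28092) (nat_lit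 0) (p (nat_lit 0x18012) (nat_lit 0) pn))))))))))))))))))))))))) :=
  Cl.node (nat_lit 0x101) (nat_lit 2) (by decide +kernel) (ClAll.succ (ClAll.succ ClAll.zero s41) s42)

def n49 : Cl (O (nat_lit 6)) (R (nat_lit 131281))
    (p (nat_lit 0x109) (nat_lit 1) (p (nat_lit 0x101) (nat_lit 0) (p (nat_lit 0x119) (nat_lit 0) (p (nat_lit 0xc9) (nat_lit 0) (p (nat_lit 0x89) (nat_lit 1) (p (nat_lit 0x41) (nat_lit 0) (p (nat_lit 0x10b0a8989089a) (nat_lit 0) (p (nat_lit 0x8a8a0908881a) (nat_lit 0) (p (nat_lit 0x10a090888079a) (nat_lit 0) (p (nat_lit 0x89888807871a) (nat_lit 0) (p (nat_lit 0x8000080000000090787068a) (nat_lit 0) (p (nat_lit 0x10807068602) (nat_lit 0) (p (nat_lit 0x8786860582) (nat_lit 0) (p (nat_lit 0x10686058502) (nat_lit 0) (p (nat_lit 0x8605850482) (nat_lit 0) (p (nat_lit 0x160004) (nat_lit 0) (p (nat_lit 0x68512) (nat_lit 0) (p (nat_lit 0x58492) (nat_lit 0) (p (nat_lit 0x48412)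 (nat_lit 0) (p (nat_lit 0x50312) (nat_lit 0) (p (nat_lit 0x40292) (nat_lit 0) (p (nat_lit 0x30212) (nat_lit 0) (p (nat_lit 0x38112) (nat_lit 0) (p (nat_lit 0x28092) (nat_lit 0) (p (nat_lit 0x18012) (nat_lit 0) pn))))))))))))))))))))))))) :=
  Cl.node (nat_lit 0xd1) (nat_lit 2) (by decide +kernel) (ClAll.succ (ClAll.succ ClAll.zero s44) n26)

def n50 : Cl (O (nat_lit 6)) (R (nat_lit 131281))
    (p (nat_lit 0xc1) (nat_lit 0) (p (nat_lit 0x101) (nat_lit 1) (p (nat_lit 0x119) (nat_lit 0) (p (nat_lit 0xc9) (nat_lit 0) (p (nat_lit 0x89) (nat_lit 1) (p (nat_lit 0x41) (nat_lit 0) (p (nat_lit 0x10b0a8989089a) (nat_lit 0) (p (nat_lit 0x8a8a0908881a) (nat_lit 0) (p (nat_lit 0x10a090888079a) (nat_lit 0) (p (nat_lit 0x89888807871a) (nat_lit 0) (p (nat_lit 0x8000080000000090787068a) (nat_lit 0) (p (nat_lit 0x10807068602) (nat_lit 0) (p (nat_lit 0x8786860582) (nat_lit 0) (p (nat_lit 0x10686058502)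 (nat_lit 0) (p (nat_lit 0x8605850482) (nat_lit 0) (p (nat_lit 0x160004) (nat_lit 0) (p (nat_lit 0x68512) (nat_lit 0) (p (nat_lit 0x58492) (nat_lit 0) (p (nat_lit 0x48412) (nat_lit 0) (p (nat_lit 0x50312) (nat_lit 0) (p (nat_lit 0x40292) (nat_lit 0) (p (nat_lit 0x30212) (nat_lit 0) (p (nat_lit 0x38112) (nat_lit 0) (p (nat_lit 0x28092) (nat_lit 0) (p (nat_lit 0x18012) (nat_lit 0) pn))))))))))))))))))))))))) :=
  Cl.node (nat_lit 0xd1) (nat_lit 2) (by decide +kernel) (ClAll.succ (ClAll.succ ClAll.zero n27) s49)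

def n51 : Cl (O (nat_lit 6)) (R (nat_lit 131281))
    (p (nat_lit 0xd1) (nat_lit 1) (p (nat_lit 0xc1) (nat_lit 0) (p (nat_lit 0x119) (nat_lit 1) (p (nat_lit 0xc9) (nat_lit 0) (p (nat_lit 0x89) (nat_lit 1) (p (nat_lit 0x41) (nat_lit 0) (p (nat_lit 0x10b0a8989089a) (nat_lit 0) (p (nat_lit 0x8a8a0908881a) (nat_lit 0) (p (nat_lit 0x10a090888079a) (nat_lit 0) (p (nat_lit 0x89888807871a) (nat_lit 0) (p (nat_lit 0x8000080000000090787068a) (nat_lit 0) (p (nat_lit 0x10807068602) (nat_lit 0) (p (nat_lit 0x8786860582) (nat_lit 0) (p (nat_lit 0x10686058502) (nat_lit 0) (p (nat_lit 0x8605850482) (nat_lit 0) (p (nat_lit 0x160004) (nat_lit 0) (p (nat_lit 0x68512) (nat_lit 0) (p (nat_lit 0x58492) (nat_lit 0) (p (nat_lit 0x48412) (nat_lit 0) (p (nat_lit 0x50312) (nat_lit 0) (p (nat_lit 0x40292) (nat_lit 0) (p (nat_lit 0x30212) (nat_lit 0) (p (nat_lit 0x38112) (nat_lit 0) (p (nat_lit 0x28092) (nat_lit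 0) (p (nat_lit 0x18012) (nat_lit 0) pn))))))))))))))))))))))))) :=
  Cl.node (nat_lit 0x111) (nat_lit 2) (by decide +kernel) (ClAll.succ (ClAll.succ ClAll.zero s52) n28)

def n52 : Cl (O (nat_lit 6)) (R (nat_lit 131281))
    (p (nat_lit 0x101) (nat_lit 0) (p (nat_lit 0xc1) (nat_lit 1) (p (nat_lit 0x119) (nat_lit 1) (p (nat_lit 0xc9) (nat_lit 0) (p (nat_lit 0x89) (nat_lit 1) (p (nat_lit 0x41) (nat_lit 0) (p (nat_lit 0x10b0a8989089a) (nat_lit 0) (p (nat_lit 0x8a8a0908881a) (nat_lit 0) (p (nat_lit 0x10a090888079a) (nat_lit 0) (p (nat_lit 0x89888807871a) (nat_lit 0) (p (nat_lit 0x8000080000000090787068a) (nat_lit 0) (p (nat_lit 0x10807068602) (nat_lit 0) (p (nat_lit 0x8786860582) (nat_lit 0) (p (nat_lit 0x10686058502) (nat_lit 0) (p (nat_lit 0x8605850482) (nat_lit 0) (p (nat_lit 0x160004) (nat_lit 0) (p (nat_lit 0x68512) (nat_lit 0) (p (nat_lit 0x58492) (nat_lit 0) (p (nat_lit 0x48412)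 (nat_lit 0) (p (nat_lit 0x50312) (nat_lit 0) (p (nat_lit 0x40292) (nat_lit 0) (p (nat_lit 0x30212) (nat_lit 0) (p (nat_lit 0x38112) (nat_lit 0) (p (nat_lit 0x28092) (nat_lit 0) (p (nat_lit 0x18012) (nat_lit 0) pn))))))))))))))))))))))))) :=
  Cl.node (nat_lit 0x111) (nat_lit 2) (by decide +kernel) (ClAll.succ (ClAll.succ ClAll.zero s55) n29)

def n53 : Cl (O (nat_lit 6)) (R (nat_lit 131281))
    (p (nat_lit 0x101) (nat_lit 1) (p (nat_lit 0xc1) (nat_lit 1) (p (nat_lit 0x119) (nat_lit 1) (p (nat_lit 0xc9) (nat_lit 0) (p (nat_lit 0x89) (nat_lit 1) (p (nat_lit 0x41) (nat_lit 0) (p (nat_lit 0x10b0a8989089a) (nat_lit 0) (p (nat_lit 0x8a8a0908881a) (nat_lit 0) (p (nat_lit 0x10a090888079a) (nat_lit 0) (p (nat_lit 0x89888807871a) (nat_lit 0) (p (nat_lit 0x8000080000000090787068a) (nat_lit 0) (p (nat_lit 0x10807068602) (nat_lit 0) (p (nat_lit 0x8786860582) (nat_lit 0) (p (nat_lit 0x10686058502)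 (nat_lit 0) (p (nat_lit 0x8605850482) (nat_lit 0) (p (nat_lit 0x160004) (nat_lit 0) (p (nat_lit 0x68512) (nat_lit 0) (p (nat_lit 0x58492) (nat_lit 0) (p (nat_lit 0x48412) (nat_lit 0) (p (nat_lit 0x50312) (nat_lit 0) (p (nat_lit 0x40292) (nat_lit 0) (p (nat_lit 0x30212) (nat_lit 0) (p (nat_lit 0x38112) (nat_lit 0) (p (nat_lit 0x28092) (nat_lit 0) (p (nat_lit 0x18012) (nat_lit 0) pn))))))))))))))))))))))))) :=
  Cl.node (nat_lit 0x20000c) (nat_lit 2) (by decide +kernel) (ClAll.succ (ClAll.succ ClAll.zero s58) s59)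

def n54 : Cl (O (nat_lit 6)) (R (nat_lit 131281))
    (p (nat_lit 0x109) (nat_lit 1) (p (nat_lit 0x101) (nat_lit 0) (p (nat_lit 0x119) (nat_lit 0) (p (nat_lit 0xd1) (nat_lit 0) (p (nat_lit 0x81) (nat_lit 0) (p (nat_lit 0x41) (nat_lit 1) (p (nat_lit 0x10b0a8989089a) (nat_lit 0) (p (nat_lit 0x8a8a0908881a) (nat_lit 0) (p (nat_lit 0x10a090888079a) (nat_lit 0) (p (nat_lit 0x89888807871a) (nat_lit 0) (p (nat_lit 0x8000080000000090787068a) (nat_lit 0) (p (nat_lit 0x10807068602) (nat_lit 0) (p (nat_lit 0x8786860582) (nat_lit 0) (p (nat_lit 0x10686058502) (nat_lit 0) (p (nat_lit 0x8605850482) (nat_lit 0) (p (nat_lit 0x160004) (nat_lit 0) (p (nat_lit 0x68512) (nat_lit 0) (p (nat_lit 0x58492) (nat_lit 0) (p (nat_lit 0x48412) (nat_lit 0) (p (nat_lit 0x50312) (nat_lit 0) (p (nat_lit 0x40292) (nat_lit 0) (p (nat_lit 0x30212) (nat_lit 0) (p (nat_lit 0x38112) (nat_lit 0) (p (nat_lit 0x28092)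 (nat_lit 0) (p (nat_lit 0x18012) (nat_lit 0) pn))))))))))))))))))))))))) :=
  Cl.node (nat_lit 0x89) (nat_lit 2) (by decide +kernel) (ClAll.succ (ClAll.succ ClAll.zero n30) n31)

def n55 : Cl (O (nat_lit 6)) (R (nat_lit 131281))
    (p (nat_lit 0xc1) (nat_lit 0) (p (nat_lit 0x101) (nat_lit 1) (p (nat_lit 0x119) (nat_lit 0) (p (nat_lit 0xd1) (nat_lit 0) (p (nat_lit 0x81) (nat_lit 0) (p (nat_lit 0x41) (nat_lit 1) (p (nat_lit 0x10b0a8989089a) (nat_lit 0) (p (nat_lit 0x8a8a0908881a) (nat_lit 0) (p (nat_lit 0x10a090888079a) (nat_lit 0) (p (nat_lit 0x89888807871a) (nat_lit 0) (p (nat_lit 0x8000080000000090787068a) (nat_lit 0) (p (nat_lit 0x10807068602) (nat_lit 0) (p (nat_lit 0x8786860582) (nat_lit 0) (p (nat_lit 0x10686058502) (nat_lit 0) (p (nat_lit 0x8605850482) (nat_lit 0) (p (nat_lit 0x160004) (nat_lit 0) (p (nat_lit 0x68512) (nat_lit 0) (p (nat_lit 0x58492) (nat_lit 0) (p (nat_lit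 0x48412) (nat_lit 0) (p (nat_lit 0x50312) (nat_lit 0) (p (nat_lit 0x40292) (nat_lit 0) (p (nat_lit 0x30212) (nat_lit 0) (p (nat_lit 0x38112) (nat_lit 0) (p (nat_lit 0x28092) (nat_lit 0) (p (nat_lit 0x18012) (nat_lit 0) pn))))))))))))))))))))))))) :=
  Cl.node (nat_lit 0x89) (nat_lit 2) (by decide +kernel) (ClAll.succ (ClAll.succ ClAll.zero s67) n32)

def n56 : Cl (O (nat_lit 6)) (R (nat_lit 131281))
    (p (nat_lit 0xc9) (nat_lit 1) (p (nat_lit 0xc1) (nat_lit 0) (p (nat_lit 0x119) (nat_lit 1) (p (nat_lit 0xd1) (nat_lit 0) (p (nat_lit 0x81) (nat_lit 0) (p (nat_lit 0x41) (nat_lit 1) (p (nat_lit 0x10b0a8989089a) (nat_lit 0) (p (nat_lit 0x8a8a0908881a) (nat_lit 0) (p (nat_lit 0x10a090888079a) (nat_lit 0) (p (nat_lit 0x89888807871a) (nat_lit 0) (p (nat_lit 0x8000080000000090787068a) (nat_lit 0) (p (nat_lit 0x10807068602) (nat_lit 0) (p (nat_lit 0x8786860582) (nat_lit 0) (p (nat_lit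 0x10686058502) (nat_lit 0) (p (nat_lit 0x8605850482) (nat_lit 0) (p (nat_lit 0x160004) (nat_lit 0) (p (nat_lit 0x68512) (nat_lit 0) (p (nat_lit 0x58492) (nat_lit 0) (p (nat_lit 0x48412) (nat_lit 0) (p (nat_lit 0x50312) (nat_lit 0) (p (nat_lit 0x40292) (nat_lit 0) (p (nat_lit 0x30212) (nat_lit 0) (p (nat_lit 0x38112) (nat_lit 0) (p (nat_lit 0x28092) (nat_lit 0) (p (nat_lit 0x18012) (nat_lit 0) pn))))))))))))))))))))))))) :=
  Cl.node (nat_lit 0x89) (nat_lit 2) (by decide +kernel) (ClAll.succ (ClAll.succ ClAll.zero s73) n33)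

def n57 : Cl (O (nat_lit 6)) (R (nat_lit 131281))
    (p (nat_lit 0x101) (nat_lit 0) (p (nat_lit 0xc1) (nat_lit 1) (p (nat_lit 0x119) (nat_lit 1) (p (nat_lit 0xd1) (nat_lit 0) (p (nat_lit 0x81) (nat_lit 0) (p (nat_lit 0x41) (nat_lit 1) (p (nat_lit 0x10b0a8989089a) (nat_lit 0) (p (nat_lit 0x8a8a0908881a) (nat_lit 0) (p (nat_lit 0x10a090888079a) (nat_lit 0) (p (nat_lit 0x89888807871a) (nat_lit 0) (p (nat_lit 0x8000080000000090787068a) (nat_lit 0) (p (nat_lit 0x10807068602) (nat_lit 0) (p (nat_lit 0x8786860582) (nat_lit 0) (p (nat_lit 0x10686058502) (nat_lit 0) (p (nat_lit 0x8605850482) (nat_lit 0) (p (nat_lit 0x160004) (nat_lit 0) (p (nat_lit 0x68512) (nat_lit 0) (p (nat_lit 0x58492) (nat_lit 0) (p (nat_lit 0x48412) (nat_lit 0) (p (nat_lit 0x50312) (nat_lit 0) (p (nat_lit 0x40292) (nat_lit 0) (p (nat_lit 0x30212) (nat_lit 0) (p (nat_lit 0x38112) (nat_lit 0) (p (nat_lit 0x28092)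 (nat_lit 0) (p (nat_lit 0x18012) (nat_lit 0) pn))))))))))))))))))))))))) :=
  Cl.node (nat_lit 0x89) (nat_lit 2) (by decide +kernel) (ClAll.succ (ClAll.succ ClAll.zero s79) n34)

def n58 : Cl (O (nat_lit 6)) (R (nat_lit 131281))
    (p (nat_lit 0x101) (nat_lit 1) (p (nat_lit 0xc1) (nat_lit 1) (p (nat_lit 0x119) (nat_lit 1) (p (nat_lit 0xd1) (nat_lit 0) (p (nat_lit 0x81) (nat_lit 0) (p (nat_lit 0x41) (nat_lit 1) (p (nat_lit 0x10b0a8989089a) (nat_lit 0) (p (nat_lit 0x8a8a0908881a) (nat_lit 0) (p (nat_lit 0x10a090888079a) (nat_lit 0) (p (nat_lit 0x89888807871a) (nat_lit 0) (p (nat_lit 0x8000080000000090787068a) (nat_lit 0) (p (nat_lit 0x10807068602) (nat_lit 0) (p (nat_lit 0x8786860582) (nat_lit 0) (p (nat_lit 0x10686058502) (nat_lit 0) (p (nat_lit 0x8605850482) (nat_lit 0) (p (nat_lit 0x160004) (nat_lit 0) (p (nat_lit 0x68512) (nat_lit 0) (p (nat_lit 0x58492) (nat_lit 0) (p (nat_lit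 0x48412) (nat_lit 0) (p (nat_lit 0x50312) (nat_lit 0) (p (nat_lit 0x40292) (nat_lit 0) (p (nat_lit 0x30212) (nat_lit 0) (p (nat_lit 0x38112) (nat_lit 0) (p (nat_lit 0x28092) (nat_lit 0) (p (nat_lit 0x18012) (nat_lit 0) pn))))))))))))))))))))))))) :=
  Cl.node (nat_lit 0x89) (nat_lit 2) (by decide +kernel) (ClAll.succ (ClAll.succ ClAll.zero s84) n35)

def n59 : Cl (O (nat_lit 6)) (R (nat_lit 131281))
    (p (nat_lit 0x109) (nat_lit 1) (p (nat_lit 0x101) (nat_lit 0) (p (nat_lit 0x111) (nat_lit 0) (p (nat_lit 0xd1) (nat_lit 1) (p (nat_lit 0x81) (nat_lit 0) (p (nat_lit 0x41) (nat_lit 1) (p (nat_lit 0x10b0a8989089a) (nat_lit 0) (p (nat_lit 0x8a8a0908881a) (nat_lit 0) (p (nat_lit 0x10a090888079a) (nat_lit 0) (p (nat_lit 0x89888807871a) (nat_lit 0) (p (nat_lit 0x8000080000000090787068a) (nat_lit 0) (p (nat_lit 0x10807068602) (nat_lit 0) (p (nat_lit 0x8786860582) (nat_lit 0) (p (nat_lit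 0x10686058502) (nat_lit 0) (p (nat_lit 0x8605850482) (nat_lit 0) (p (nat_lit 0x160004) (nat_lit 0) (p (nat_lit 0x68512) (nat_lit 0) (p (nat_lit 0x58492) (nat_lit 0) (p (nat_lit 0x48412) (nat_lit 0) (p (nat_lit 0x50312) (nat_lit 0) (p (nat_lit 0x40292) (nat_lit 0) (p (nat_lit 0x30212) (nat_lit 0) (p (nat_lit 0x38112) (nat_lit 0) (p (nat_lit 0x28092) (nat_lit 0) (p (nat_lit 0x18012) (nat_lit 0) pn))))))))))))))))))))))))) :=
  Cl.node (nat_lit 0x89) (nat_lit 2) (by decide +kernel) (ClAll.succ (ClAll.succ ClAll.zero s88) n36)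

def n60 : Cl (O (nat_lit 6)) (R (nat_lit 131281))
    (p (nat_lit 0xd1) (nat_lit 1) (p (nat_lit 0xc9) (nat_lit 0) (p (nat_lit 0x119) (nat_lit 1) (p (nat_lit 0xc1) (nat_lit 0) (p (nat_lit 0x81) (nat_lit 1) (p (nat_lit 0x41) (nat_lit 1) (p (nat_lit 0x10b0a8989089a) (nat_lit 0) (p (nat_lit 0x8a8a0908881a) (nat_lit 0) (p (nat_lit 0x10a090888079a) (nat_lit 0) (p (nat_lit 0x89888807871a) (nat_lit 0) (p (nat_lit 0x8000080000000090787068a) (nat_lit 0) (p (nat_lit 0x10807068602) (nat_lit 0) (p (nat_lit 0x8786860582) (nat_lit 0) (p (nat_lit 0x10686058502) (nat_lit 0) (p (nat_lit 0x8605850482) (nat_lit 0) (p (nat_lit 0x160004) (nat_lit 0) (p (nat_lit 0x68512) (nat_lit 0) (p (nat_lit 0x58492) (nat_lit 0) (p (nat_lit 0x48412) (nat_lit 0) (p (nat_lit 0x50312) (nat_lit 0) (p (nat_lit 0x40292) (nat_lit 0) (p (nat_lit 0x30212) (nat_lit 0) (p (nat_lit 0x38112) (nat_lit 0) (p (nat_lit 0x28092) (nat_lit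 0) (p (nat_lit 0x18012) (nat_lit 0) pn))))))))))))))))))))))))) :=
  Cl.node (nat_lit 0x111) (nat_lit 2) (by decide +kernel) (ClAll.succ (ClAll.succ ClAll.zero s101) n37)

def n61 : Cl (O (nat_lit 6)) (R (nat_lit 131281))
    (p (nat_lit 0x109) (nat_lit 0) (p (nat_lit 0xc9) (nat_lit 1) (p (nat_lit 0x119) (nat_lit 1) (p (nat_lit 0xc1) (nat_lit 0) (p (nat_lit 0x81) (nat_lit 1) (p (nat_lit 0x41) (nat_lit 1) (p (nat_lit 0x10b0a8989089a) (nat_lit 0) (p (nat_lit 0x8a8a0908881a) (nat_lit 0) (p (nat_lit 0x10a090888079a) (nat_lit 0) (p (nat_lit 0x89888807871a) (nat_lit 0) (p (nat_lit 0x8000080000000090787068a) (nat_lit 0) (p (nat_lit 0x10807068602) (nat_lit 0) (p (nat_lit 0x8786860582) (nat_lit 0) (p (nat_lit 0x10686058502) (nat_lit 0) (p (nat_lit 0x8605850482) (nat_lit 0) (p (nat_lit 0x160004) (nat_lit 0) (p (nat_lit 0x68512) (nat_lit 0) (p (nat_lit 0x58492) (nat_lit 0) (p (nat_lit 0x48412)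 (nat_lit 0) (p (nat_lit 0x50312) (nat_lit 0) (p (nat_lit 0x40292) (nat_lit 0) (p (nat_lit 0x30212) (nat_lit 0) (p (nat_lit 0x38112) (nat_lit 0) (p (nat_lit 0x28092) (nat_lit 0) (p (nat_lit 0x18012) (nat_lit 0) pn))))))))))))))))))))))))) :=
  Cl.node (nat_lit 0x111) (nat_lit 2) (by decide +kernel) (ClAll.succ (ClAll.succ ClAll.zero s104) n38)

def n62 : Cl (O (nat_lit 6)) (R (nat_lit 131281))
    (p (nat_lit 0x101) (nat_lit 0) (p (nat_lit 0x119) (nat_lit 0) (p (nat_lit 0xd1) (nat_lit 0) (p (nat_lit 0x89) (nat_lit 0) (p (nat_lit 0x41) (nat_lit 0) (p (nat_lit 0x10b0a8989089a) (nat_lit 0) (p (nat_lit 0x8a8a0908881a) (nat_lit 0) (p (nat_lit 0x10a090888079a) (nat_lit 0) (p (nat_lit 0x89888807871a) (nat_lit 0) (p (nat_lit 0x8000080000000090787068a) (nat_lit 0) (p (nat_lit 0x10807068602) (nat_lit 0) (p (nat_lit 0x8786860582) (nat_lit 0) (p (nat_lit 0x10686058502) (nat_lit 0) (p (nat_lit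 0x8605850482) (nat_lit 0) (p (nat_lit 0x160004) (nat_lit 0) (p (nat_lit 0x68512) (nat_lit 0) (p (nat_lit 0x58492) (nat_lit 0) (p (nat_lit 0x48412) (nat_lit 0) (p (nat_lit 0x50312) (nat_lit 0) (p (nat_lit 0x40292) (nat_lit 0) (p (nat_lit 0x30212) (nat_lit 0) (p (nat_lit 0x38112) (nat_lit 0) (p (nat_lit 0x28092) (nat_lit 0) (p (nat_lit 0x18012) (nat_lit 0) pn)))))))))))))))))))))))) :=
  Cl.node (nat_lit 0x109) (nat_lit 2) (by decide +kernel) (ClAll.succ (ClAll.succ ClAll.zero s0) n39)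

def n63 : Cl (O (nat_lit 6)) (R (nat_lit 131281))
    (p (nat_lit 0x101) (nat_lit 1) (p (nat_lit 0x119) (nat_lit 0) (p (nat_lit 0xd1) (nat_lit 0) (p (nat_lit 0x89) (nat_lit 0) (p (nat_lit 0x41) (nat_lit 0) (p (nat_lit 0x10b0a8989089a) (nat_lit 0) (p (nat_lit 0x8a8a0908881a) (nat_lit 0) (p (nat_lit 0x10a090888079a) (nat_lit 0) (p (nat_lit 0x89888807871a) (nat_lit 0) (p (nat_lit 0x8000080000000090787068a) (nat_lit 0) (p (nat_lit 0x10807068602) (nat_lit 0) (p (nat_lit 0x8786860582) (nat_lit 0) (p (nat_lit 0x10686058502) (nat_lit 0) (p (nat_lit 0x8605850482) (nat_lit 0) (p (nat_lit 0x160004) (nat_lit 0) (p (nat_lit 0x68512) (nat_lit 0) (p (nat_lit 0x58492) (nat_lit 0) (p (nat_lit 0x48412) (nat_lit 0) (p (nat_lit 0x50312) (nat_lit 0) (p (nat_lit 0x40292) (nat_lit 0) (p (nat_lit 0x30212) (nat_lit 0) (p (nat_lit 0x38112) (nat_lit 0) (p (nat_lit 0x28092) (nat_lit 0) (p (nat_lit 0x18012)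 (nat_lit 0) pn)))))))))))))))))))))))) :=
  Cl.node (nat_lit 0x81) (nat_lit 2) (by decide +kernel) (ClAll.succ (ClAll.succ ClAll.zero n40) n41)

def n64 : Cl (O (nat_lit 6)) (R (nat_lit 131281))
    (p (nat_lit 0xc1) (nat_lit 0) (p (nat_lit 0x119) (nat_lit 1) (p (nat_lit 0xd1) (nat_lit 0) (p (nat_lit 0x89) (nat_lit 0) (p (nat_lit 0x41) (nat_lit 0) (p (nat_lit 0x10b0a8989089a) (nat_lit 0) (p (nat_lit 0x8a8a0908881a) (nat_lit 0) (p (nat_lit 0x10a090888079a) (nat_lit 0) (p (nat_lit 0x89888807871a) (nat_lit 0) (p (nat_lit 0x8000080000000090787068a) (nat_lit 0) (p (nat_lit 0x10807068602) (nat_lit 0) (p (nat_lit 0x8786860582) (nat_lit 0) (p (nat_lit 0x10686058502) (nat_lit 0) (p (nat_lit 0x8605850482) (nat_lit 0) (p (nat_lit 0x160004) (nat_lit 0) (p (nat_lit 0x68512) (nat_lit 0) (p (nat_lit 0x58492) (nat_lit 0) (p (nat_lit 0x48412) (nat_lit 0) (p (nat_lit 0x50312) (nat_lit 0) (p (nat_lit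 0x40292) (nat_lit 0) (p (nat_lit 0x30212) (nat_lit 0) (p (nat_lit 0x38112) (nat_lit 0) (p (nat_lit 0x28092) (nat_lit 0) (p (nat_lit 0x18012) (nat_lit 0) pn)))))))))))))))))))))))) :=
  Cl.node (nat_lit 0xc9) (nat_lit 2) (by decide +kernel) (ClAll.succ (ClAll.succ ClAll.zero s15) n42)

def n65 : Cl (O (nat_lit 6)) (R (nat_lit 131281))
    (p (nat_lit 0xc1) (nat_lit 1) (p (nat_lit 0x119) (nat_lit 1) (p (nat_lit 0xd1) (nat_lit 0) (p (nat_lit 0x89) (nat_lit 0) (p (nat_lit 0x41) (nat_lit 0) (p (nat_lit 0x10b0a8989089a) (nat_lit 0) (p (nat_lit 0x8a8a0908881a) (nat_lit 0) (p (nat_lit 0x10a090888079a) (nat_lit 0) (p (nat_lit 0x89888807871a) (nat_lit 0) (p (nat_lit 0x8000080000000090787068a) (nat_lit 0) (p (nat_lit 0x10807068602) (nat_lit 0) (p (nat_lit 0x8786860582) (nat_lit 0) (p (nat_lit 0x10686058502) (nat_lit 0) (p (nat_lit 0x8605850482) (nat_lit 0) (p (nat_lit 0x160004) (nat_lit 0)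 (p (nat_lit 0x68512) (nat_lit 0) (p (nat_lit 0x58492) (nat_lit 0) (p (nat_lit 0x48412) (nat_lit 0) (p (nat_lit 0x50312) (nat_lit 0) (p (nat_lit 0x40292) (nat_lit 0) (p (nat_lit 0x30212) (nat_lit 0) (p (nat_lit 0x38112) (nat_lit 0) (p (nat_lit 0x28092) (nat_lit 0) (p (nat_lit 0x18012) (nat_lit 0) pn)))))))))))))))))))))))) :=
  Cl.node (nat_lit 0x81) (nat_lit 2) (by decide +kernel) (ClAll.succ (ClAll.succ ClAll.zero n43) n44)

def n66 : Cl (O (nat_lit 6)) (R (nat_lit 131281))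
    (p (nat_lit 0x101) (nat_lit 0) (p (nat_lit 0x111) (nat_lit 0) (p (nat_lit 0xd1) (nat_lit 1) (p (nat_lit 0x89) (nat_lit 0) (p (nat_lit 0x41) (nat_lit 0) (p (nat_lit 0x10b0a8989089a) (nat_lit 0) (p (nat_lit 0x8a8a0908881a) (nat_lit 0) (p (nat_lit 0x10a090888079a) (nat_lit 0) (p (nat_lit 0x89888807871a) (nat_lit 0) (p (nat_lit 0x8000080000000090787068a) (nat_lit 0) (p (nat_lit 0x10807068602) (nat_lit 0) (p (nat_lit 0x8786860582) (nat_lit 0) (p (nat_lit 0x10686058502) (nat_lit 0) (p (nat_lit 0x8605850482) (nat_lit 0) (p (nat_lit 0x160004) (nat_lit 0) (p (nat_lit 0x68512) (nat_lit 0) (p (nat_lit 0x58492) (nat_lit 0) (p (nat_lit 0x48412) (nat_lit 0) (p (nat_lit 0x50312) (nat_lit 0) (p (nat_lit 0x40292) (nat_lit 0) (p (nat_lit 0x30212) (nat_lit 0) (p (nat_lit 0x38112) (nat_lit 0) (p (nat_lit 0x28092) (nat_lit 0) (p (nat_lit 0x18012) (nat_lit 0) pn)))))))))))))))))))))))) :=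
  Cl.node (nat_lit 0x109) (nat_lit 2) (by decide +kernel) (ClAll.succ (ClAll.succ ClAll.zero s31) n45)

def n67 : Cl (O (nat_lit 6)) (R (nat_lit 131281))
    (p (nat_lit 0x101) (nat_lit 1) (p (nat_lit 0x111) (nat_lit 0) (p (nat_lit 0xd1) (nat_lit 1) (p (nat_lit 0x89) (nat_lit 0) (p (nat_lit 0x41) (nat_lit 0) (p (nat_lit 0x10b0a8989089a) (nat_lit 0) (p (nat_lit 0x8a8a0908881a) (nat_lit 0) (p (nat_lit 0x10a090888079a) (nat_lit 0) (p (nat_lit 0x89888807871a) (nat_lit 0) (p (nat_lit 0x8000080000000090787068a) (nat_lit 0) (p (nat_lit 0x10807068602) (nat_lit 0) (p (nat_lit 0x8786860582) (nat_lit 0) (p (nat_lit 0x10686058502) (nat_lit 0) (p (nat_lit 0x8605850482) (nat_lit 0) (p (nat_lit 0x160004) (nat_lit 0) (p (nat_lit 0x68512) (nat_lit 0) (p (nat_lit 0x58492) (nat_lit 0) (p (nat_lit 0x48412) (nat_lit 0) (p (nat_lit 0x50312) (nat_lit 0) (p (nat_lit 0x40292) (nat_lit 0) (p (nat_lit 0x30212)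 (nat_lit 0) (p (nat_lit 0x38112) (nat_lit 0) (p (nat_lit 0x28092) (nat_lit 0) (p (nat_lit 0x18012) (nat_lit 0) pn)))))))))))))))))))))))) :=
  Cl.node (nat_lit 0x81) (nat_lit 2) (by decide +kernel) (ClAll.succ (ClAll.succ ClAll.zero n46) n47)

def n68 : Cl (O (nat_lit 6)) (R (nat_lit 131281))
    (p (nat_lit 0x81) (nat_lit 1) (p (nat_lit 0x111) (nat_lit 1) (p (nat_lit 0xd1) (nat_lit 1) (p (nat_lit 0x89) (nat_lit 0) (p (nat_lit 0x41) (nat_lit 0) (p (nat_lit 0x10b0a8989089a) (nat_lit 0) (p (nat_lit 0x8a8a0908881a) (nat_lit 0) (p (nat_lit 0x10a090888079a) (nat_lit 0) (p (nat_lit 0x89888807871a) (nat_lit 0) (p (nat_lit 0x8000080000000090787068a) (nat_lit 0) (p (nat_lit 0x10807068602) (nat_lit 0) (p (nat_lit 0x8786860582) (nat_lit 0) (p (nat_lit 0x10686058502) (nat_lit 0) (p (nat_lit 0x8605850482) (nat_lit 0) (p (nat_lit 0x160004) (nat_lit 0) (p (nat_lit 0x68512) (nat_lit 0) (p (nat_lit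 0x58492) (nat_lit 0) (p (nat_lit 0x48412) (nat_lit 0) (p (nat_lit 0x50312) (nat_lit 0) (p (nat_lit 0x40292) (nat_lit 0) (p (nat_lit 0x30212) (nat_lit 0) (p (nat_lit 0x38112) (nat_lit 0) (p (nat_lit 0x28092) (nat_lit 0) (p (nat_lit 0x18012) (nat_lit 0) pn)))))))))))))))))))))))) :=
  Cl.node (nat_lit 0xc1) (nat_lit 2) (by decide +kernel) (ClAll.succ (ClAll.succ ClAll.zero s40) n48)

def n69 : Cl (O (nat_lit 6)) (R (nat_lit 131281))
    (p (nat_lit 0x101) (nat_lit 0) (p (nat_lit 0x119) (nat_lit 0) (p (nat_lit 0xc9) (nat_lit 0) (p (nat_lit 0x89) (nat_lit 1) (p (nat_lit 0x41) (nat_lit 0) (p (nat_lit 0x10b0a8989089a) (nat_lit 0) (p (nat_lit 0x8a8a0908881a) (nat_lit 0) (p (nat_lit 0x10a090888079a) (nat_lit 0) (p (nat_lit 0x89888807871a) (nat_lit 0) (p (nat_lit 0x8000080000000090787068a) (nat_lit 0) (p (nat_lit 0x10807068602) (nat_lit 0) (p (nat_lit 0x8786860582) (nat_lit 0) (p (nat_lit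 0x10686058502) (nat_lit 0) (p (nat_lit 0x8605850482) (nat_lit 0) (p (nat_lit 0x160004) (nat_lit 0) (p (nat_lit 0x68512) (nat_lit 0) (p (nat_lit 0x58492) (nat_lit 0) (p (nat_lit 0x48412) (nat_lit 0) (p (nat_lit 0x50312) (nat_lit 0) (p (nat_lit 0x40292) (nat_lit 0) (p (nat_lit 0x30212) (nat_lit 0) (p (nat_lit 0x38112) (nat_lit 0) (p (nat_lit 0x28092) (nat_lit 0) (p (nat_lit 0x18012) (nat_lit 0) pn)))))))))))))))))))))))) :=
  Cl.node (nat_lit 0x109) (nat_lit 2) (by decide +kernel) (ClAll.succ (ClAll.succ ClAll.zero s43) n49)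

def n70 : Cl (O (nat_lit 6)) (R (nat_lit 131281))
    (p (nat_lit 0x101) (nat_lit 1) (p (nat_lit 0x119) (nat_lit 0) (p (nat_lit 0xc9) (nat_lit 0) (p (nat_lit 0x89) (nat_lit 1) (p (nat_lit 0x41) (nat_lit 0) (p (nat_lit 0x10b0a8989089a) (nat_lit 0) (p (nat_lit 0x8a8a0908881a) (nat_lit 0) (p (nat_lit 0x10a090888079a) (nat_lit 0) (p (nat_lit 0x89888807871a) (nat_lit 0) (p (nat_lit 0x8000080000000090787068a) (nat_lit 0) (p (nat_lit 0x10807068602) (nat_lit 0) (p (nat_lit 0x8786860582) (nat_lit 0) (p (nat_lit 0x10686058502) (nat_lit 0) (p (nat_lit 0x8605850482) (nat_lit 0) (p (nat_lit 0x160004) (nat_lit 0) (p (nat_lit 0x68512) (nat_lit 0) (p (nat_lit 0x58492) (nat_lit 0) (p (nat_lit 0x48412) (nat_lit 0) (p (nat_lit 0x50312) (nat_lit 0) (p (nat_lit 0x40292) (nat_lit 0) (p (nat_lit 0x30212) (nat_lit 0) (p (nat_lit 0x38112) (nat_lit 0) (p (nat_lit 0x28092) (nat_lit 0) (p (nat_lit 0x18012)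 (nat_lit 0) pn)))))))))))))))))))))))) :=
  Cl.node (nat_lit 0xc1) (nat_lit 2) (by decide +kernel) (ClAll.succ (ClAll.succ ClAll.zero n50) s50)

def n71 : Cl (O (nat_lit 6)) (R (nat_lit 131281))
    (p (nat_lit 0xc1) (nat_lit 0) (p (nat_lit 0x119) (nat_lit 1) (p (nat_lit 0xc9) (nat_lit 0) (p (nat_lit 0x89) (nat_lit 1) (p (nat_lit 0x41) (nat_lit 0) (p (nat_lit 0x10b0a8989089a) (nat_lit 0) (p (nat_lit 0x8a8a0908881a) (nat_lit 0) (p (nat_lit 0x10a090888079a) (nat_lit 0) (p (nat_lit 0x89888807871a) (nat_lit 0) (p (nat_lit 0x8000080000000090787068a) (nat_lit 0) (p (nat_lit 0x10807068602) (nat_lit 0) (p (nat_lit 0x8786860582) (nat_lit 0) (p (nat_lit 0x10686058502) (nat_lit 0) (p (nat_lit 0x8605850482) (nat_lit 0) (p (nat_lit 0x160004) (nat_lit 0) (p (nat_lit 0x68512) (nat_lit 0) (p (nat_lit 0x58492) (nat_lit 0) (p (nat_lit 0x48412) (nat_lit 0) (p (nat_lit 0x50312) (nat_lit 0) (p (nat_lit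 0x40292) (nat_lit 0) (p (nat_lit 0x30212) (nat_lit 0) (p (nat_lit 0x38112) (nat_lit 0) (p (nat_lit 0x28092) (nat_lit 0) (p (nat_lit 0x18012) (nat_lit 0) pn)))))))))))))))))))))))) :=
  Cl.node (nat_lit 0xd1) (nat_lit 2) (by decide +kernel) (ClAll.succ (ClAll.succ ClAll.zero s51) n51)

def n72 : Cl (O (nat_lit 6)) (R (nat_lit 131281))
    (p (nat_lit 0xc1) (nat_lit 1) (p (nat_lit 0x119) (nat_lit 1) (p (nat_lit 0xc9) (nat_lit 0) (p (nat_lit 0x89) (nat_lit 1) (p (nat_lit 0x41) (nat_lit 0) (p (nat_lit 0x10b0a8989089a) (nat_lit 0) (p (nat_lit 0x8a8a0908881a) (nat_lit 0) (p (nat_lit 0x10a090888079a) (nat_lit 0) (p (nat_lit 0x89888807871a) (nat_lit 0) (p (nat_lit 0x8000080000000090787068a) (nat_lit 0) (p (nat_lit 0x10807068602) (nat_lit 0) (p (nat_lit 0x8786860582) (nat_lit 0) (p (nat_lit 0x10686058502) (nat_lit 0) (p (nat_lit 0x8605850482) (nat_lit 0) (p (nat_lit 0x160004) (nat_lit 0)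 (p (nat_lit 0x68512) (nat_lit 0) (p (nat_lit 0x58492) (nat_lit 0) (p (nat_lit 0x48412) (nat_lit 0) (p (nat_lit 0x50312) (nat_lit 0) (p (nat_lit 0x40292) (nat_lit 0) (p (nat_lit 0x30212) (nat_lit 0) (p (nat_lit 0x38112) (nat_lit 0) (p (nat_lit 0x28092) (nat_lit 0) (p (nat_lit 0x18012) (nat_lit 0) pn)))))))))))))))))))))))) :=
  Cl.node (nat_lit 0x101) (nat_lit 2) (by decide +kernel) (ClAll.succ (ClAll.succ ClAll.zero n52) n53)

def n73 : Cl (O (nat_lit 6)) (R (nat_lit 131281))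
    (p (nat_lit 0x101) (nat_lit 0) (p (nat_lit 0x119) (nat_lit 0) (p (nat_lit 0xd1) (nat_lit 0) (p (nat_lit 0x81) (nat_lit 0) (p (nat_lit 0x41) (nat_lit 1) (p (nat_lit 0x10b0a8989089a) (nat_lit 0) (p (nat_lit 0x8a8a0908881a) (nat_lit 0) (p (nat_lit 0x10a090888079a) (nat_lit 0) (p (nat_lit 0x89888807871a) (nat_lit 0) (p (nat_lit 0x8000080000000090787068a) (nat_lit 0) (p (nat_lit 0x10807068602) (nat_lit 0) (p (nat_lit 0x8786860582) (nat_lit 0) (p (nat_lit 0x10686058502) (nat_lit 0) (p (nat_lit 0x8605850482) (nat_lit 0) (p (nat_lit 0x160004) (nat_lit 0) (p (nat_lit 0x68512) (nat_lit 0) (p (nat_lit 0x58492) (nat_lit 0) (p (nat_lit 0x48412) (nat_lit 0) (p (nat_lit 0x50312) (nat_lit 0) (p (nat_lit 0x40292) (nat_lit 0) (p (nat_lit 0x30212) (nat_lit 0) (p (nat_lit 0x38112) (nat_lit 0) (p (nat_lit 0x28092) (nat_lit 0) (p (nat_lit 0x18012) (nat_lit 0) pn)))))))))))))))))))))))) :=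
  Cl.node (nat_lit 0x109) (nat_lit 2) (by decide +kernel) (ClAll.succ (ClAll.succ ClAll.zero s61) n54)

def n74 : Cl (O (nat_lit 6)) (R (nat_lit 131281))
    (p (nat_lit 0x101) (nat_lit 1) (p (nat_lit 0x119) (nat_lit 0) (p (nat_lit 0xd1) (nat_lit 0) (p (nat_lit 0x81) (nat_lit 0) (p (nat_lit 0x41) (nat_lit 1) (p (nat_lit 0x10b0a8989089a) (nat_lit 0) (p (nat_lit 0x8a8a0908881a) (nat_lit 0) (p (nat_lit 0x10a090888079a) (nat_lit 0) (p (nat_lit 0x89888807871a) (nat_lit 0) (p (nat_lit 0x8000080000000090787068a) (nat_lit 0) (p (nat_lit 0x10807068602) (nat_lit 0) (p (nat_lit 0x8786860582) (nat_lit 0) (p (nat_lit 0x10686058502) (nat_lit 0) (p (nat_lit 0x8605850482) (nat_lit 0) (p (nat_lit 0x160004) (nat_lit 0) (p (nat_lit 0x68512) (nat_lit 0) (p (nat_lit 0x58492) (nat_lit 0) (p (nat_lit 0x48412) (nat_lit 0) (p (nat_lit 0x50312) (nat_lit 0) (p (nat_lit 0x40292) (nat_lit 0) (p (nat_lit 0x30212)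 (nat_lit 0) (p (nat_lit 0x38112) (nat_lit 0) (p (nat_lit 0x28092) (nat_lit 0) (p (nat_lit 0x18012) (nat_lit 0) pn)))))))))))))))))))))))) :=
  Cl.node (nat_lit 0xc1) (nat_lit 2) (by decide +kernel) (ClAll.succ (ClAll.succ ClAll.zero n55) s71)

def n75 : Cl (O (nat_lit 6)) (R (nat_lit 131281))
    (p (nat_lit 0xc1) (nat_lit 0) (p (nat_lit 0x119) (nat_lit 1) (p (nat_lit 0xd1) (nat_lit 0) (p (nat_lit 0x81) (nat_lit 0) (p (nat_lit 0x41) (nat_lit 1) (p (nat_lit 0x10b0a8989089a) (nat_lit 0) (p (nat_lit 0x8a8a0908881a) (nat_lit 0) (p (nat_lit 0x10a090888079a) (nat_lit 0) (p (nat_lit 0x89888807871a) (nat_lit 0) (p (nat_lit 0x8000080000000090787068a) (nat_lit 0) (p (nat_lit 0x10807068602) (nat_lit 0) (p (nat_lit 0x8786860582) (nat_lit 0) (p (nat_lit 0x10686058502) (nat_lit 0) (p (nat_lit 0x8605850482) (nat_lit 0) (p (nat_lit 0x160004) (nat_lit 0) (p (nat_lit 0x68512) (nat_lit 0) (p (nat_lit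 0x58492) (nat_lit 0) (p (nat_lit 0x48412) (nat_lit 0) (p (nat_lit 0x50312) (nat_lit 0) (p (nat_lit 0x40292) (nat_lit 0) (p (nat_lit 0x30212) (nat_lit 0) (p (nat_lit 0x38112) (nat_lit 0) (p (nat_lit 0x28092) (nat_lit 0) (p (nat_lit 0x18012) (nat_lit 0) pn)))))))))))))))))))))))) :=
  Cl.node (nat_lit 0xc9) (nat_lit 2) (by decide +kernel) (ClAll.succ (ClAll.succ ClAll.zero s72) n56)

def n76 : Cl (O (nat_lit 6)) (R (nat_lit 131281))
    (p (nat_lit 0xc1) (nat_lit 1) (p (nat_lit 0x119) (nat_lit 1) (p (nat_lit 0xd1) (nat_lit 0) (p (nat_lit 0x81) (nat_lit 0) (p (nat_lit 0x41) (nat_lit 1) (p (nat_lit 0x10b0a8989089a) (nat_lit 0) (p (nat_lit 0x8a8a0908881a) (nat_lit 0) (p (nat_lit 0x10a090888079a) (nat_lit 0) (p (nat_lit 0x89888807871a) (nat_lit 0) (p (nat_lit 0x8000080000000090787068a) (nat_lit 0) (p (nat_lit 0x10807068602) (nat_lit 0) (p (nat_lit 0x8786860582) (nat_lit 0) (p (nat_lit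 0x10686058502) (nat_lit 0) (p (nat_lit 0x8605850482) (nat_lit 0) (p (nat_lit 0x160004) (nat_lit 0) (p (nat_lit 0x68512) (nat_lit 0) (p (nat_lit 0x58492) (nat_lit 0) (p (nat_lit 0x48412) (nat_lit 0) (p (nat_lit 0x50312) (nat_lit 0) (p (nat_lit 0x40292) (nat_lit 0) (p (nat_lit 0x30212) (nat_lit 0) (p (nat_lit 0x38112) (nat_lit 0) (p (nat_lit 0x28092) (nat_lit 0) (p (nat_lit 0x18012) (nat_lit 0) pn)))))))))))))))))))))))) :=
  Cl.node (nat_lit 0x101) (nat_lit 2) (by decide +kernel) (ClAll.succ (ClAll.succ ClAll.zero n57) n58)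

def n77 : Cl (O (nat_lit 6)) (R (nat_lit 131281))
    (p (nat_lit 0x101) (nat_lit 0) (p (nat_lit 0x111) (nat_lit 0) (p (nat_lit 0xd1) (nat_lit 1) (p (nat_lit 0x81) (nat_lit 0) (p (nat_lit 0x41) (nat_lit 1) (p (nat_lit 0x10b0a8989089a) (nat_lit 0) (p (nat_lit 0x8a8a0908881a) (nat_lit 0) (p (nat_lit 0x10a090888079a) (nat_lit 0) (p (nat_lit 0x89888807871a) (nat_lit 0) (p (nat_lit 0x8000080000000090787068a) (nat_lit 0) (p (nat_lit 0x10807068602) (nat_lit 0) (p (nat_lit 0x8786860582) (nat_lit 0) (p (nat_lit 0x10686058502) (nat_lit 0) (p (nat_lit 0x8605850482) (nat_lit 0) (p (nat_lit 0x160004) (nat_lit 0) (p (nat_lit 0x68512) (nat_lit 0) (p (nat_lit 0x58492) (nat_lit 0) (p (nat_lit 0x48412) (nat_lit 0) (p (nat_lit 0x50312) (nat_lit 0) (p (nat_lit 0x40292) (nat_lit 0) (p (nat_lit 0x30212) (nat_lit 0) (p (nat_lit 0x38112) (nat_lit 0) (p (nat_lit 0x28092) (nat_lit 0) (p (nat_lit 0x18012)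 (nat_lit 0) pn)))))))))))))))))))))))) :=
  Cl.node (nat_lit 0x109) (nat_lit 2) (by decide +kernel) (ClAll.succ (ClAll.succ ClAll.zero s87) n59)

def n78 : Cl (O (nat_lit 6)) (R (nat_lit 131281))
    (p (nat_lit 0x101) (nat_lit 1) (p (nat_lit 0x111) (nat_lit 0) (p (nat_lit 0xd1) (nat_lit 1) (p (nat_lit 0x81) (nat_lit 0) (p (nat_lit 0x41) (nat_lit 1) (p (nat_lit 0x10b0a8989089a) (nat_lit 0) (p (nat_lit 0x8a8a0908881a) (nat_lit 0) (p (nat_lit 0x10a090888079a) (nat_lit 0) (p (nat_lit 0x89888807871a) (nat_lit 0) (p (nat_lit 0x8000080000000090787068a) (nat_lit 0) (p (nat_lit 0x10807068602) (nat_lit 0) (p (nat_lit 0x8786860582) (nat_lit 0) (p (nat_lit 0x10686058502) (nat_lit 0) (p (nat_lit 0x8605850482) (nat_lit 0) (p (nat_lit 0x160004) (nat_lit 0) (p (nat_lit 0x68512) (nat_lit 0) (p (nat_lit 0x58492) (nat_lit 0) (p (nat_lit 0x48412) (nat_lit 0) (p (nat_lit 0x50312) (nat_lit 0) (p (nat_lit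 0x40292) (nat_lit 0) (p (nat_lit 0x30212) (nat_lit 0) (p (nat_lit 0x38112) (nat_lit 0) (p (nat_lit 0x28092) (nat_lit 0) (p (nat_lit 0x18012) (nat_lit 0) pn)))))))))))))))))))))))) :=
  Cl.node (nat_lit 0x89) (nat_lit 2) (by decide +kernel) (ClAll.succ (ClAll.succ ClAll.zero s92) s93)

def n79 : Cl (O (nat_lit 6)) (R (nat_lit 131281))
    (p (nat_lit 0x101) (nat_lit 0) (p (nat_lit 0x119) (nat_lit 0) (p (nat_lit 0xc1) (nat_lit 0) (p (nat_lit 0x81) (nat_lit 1) (p (nat_lit 0x41) (nat_lit 1) (p (nat_lit 0x10b0a8989089a) (nat_lit 0) (p (nat_lit 0x8a8a0908881a) (nat_lit 0) (p (nat_lit 0x10a090888079a) (nat_lit 0) (p (nat_lit 0x89888807871a) (nat_lit 0) (p (nat_lit 0x8000080000000090787068a) (nat_lit 0) (p (nat_lit 0x10807068602) (nat_lit 0) (p (nat_lit 0x8786860582) (nat_lit 0) (p (nat_lit 0x10686058502) (nat_lit 0) (p (nat_lit 0x8605850482) (nat_lit 0) (p (nat_lit 0x160004) (nat_lit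 0) (p (nat_lit 0x68512) (nat_lit 0) (p (nat_lit 0x58492) (nat_lit 0) (p (nat_lit 0x48412) (nat_lit 0) (p (nat_lit 0x50312) (nat_lit 0) (p (nat_lit 0x40292) (nat_lit 0) (p (nat_lit 0x30212) (nat_lit 0) (p (nat_lit 0x38112) (nat_lit 0) (p (nat_lit 0x28092) (nat_lit 0) (p (nat_lit 0x18012) (nat_lit 0) pn)))))))))))))))))))))))) :=
  Cl.node (nat_lit 0x109) (nat_lit 2) (by decide +kernel) (ClAll.succ (ClAll.succ ClAll.zero s96) s97)

def n80 : Cl (O (nat_lit 6)) (R (nat_lit 131281))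
    (p (nat_lit 0x101) (nat_lit 1) (p (nat_lit 0x119) (nat_lit 0) (p (nat_lit 0xc1) (nat_lit 0) (p (nat_lit 0x81) (nat_lit 1) (p (nat_lit 0x41) (nat_lit 1) (p (nat_lit 0x10b0a8989089a) (nat_lit 0) (p (nat_lit 0x8a8a0908881a) (nat_lit 0) (p (nat_lit 0x10a090888079a) (nat_lit 0) (p (nat_lit 0x89888807871a) (nat_lit 0) (p (nat_lit 0x8000080000000090787068a) (nat_lit 0) (p (nat_lit 0x10807068602) (nat_lit 0) (p (nat_lit 0x8786860582) (nat_lit 0) (p (nat_lit 0x10686058502) (nat_lit 0) (p (nat_lit 0x8605850482) (nat_lit 0) (p (nat_lit 0x160004) (nat_lit 0) (p (nat_lit 0x68512) (nat_lit 0) (p (nat_lit 0x58492) (nat_lit 0) (p (nat_lit 0x48412) (nat_lit 0) (p (nat_lit 0x50312) (nat_lit 0) (p (nat_lit 0x40292) (nat_lit 0) (p (nat_lit 0x30212) (nat_lit 0) (p (nat_lit 0x38112) (nat_lit 0) (p (nat_lit 0x28092) (nat_lit 0) (p (nat_lit 0x18012) (nat_lit 0) pn)))))))))))))))))))))))) :=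
  Cl.node (nat_lit 0xc9) (nat_lit 2) (by decide +kernel) (ClAll.succ (ClAll.succ ClAll.zero s98) s99)

def n81 : Cl (O (nat_lit 6)) (R (nat_lit 131281))
    (p (nat_lit 0xc9) (nat_lit 0) (p (nat_lit 0x119) (nat_lit 1) (p (nat_lit 0xc1) (nat_lit 0) (p (nat_lit 0x81) (nat_lit 1) (p (nat_lit 0x41) (nat_lit 1) (p (nat_lit 0x10b0a8989089a) (nat_lit 0) (p (nat_lit 0x8a8a0908881a) (nat_lit 0) (p (nat_lit 0x10a090888079a) (nat_lit 0) (p (nat_lit 0x89888807871a) (nat_lit 0) (p (nat_lit 0x8000080000000090787068a) (nat_lit 0) (p (nat_lit 0x10807068602) (nat_lit 0) (p (nat_lit 0x8786860582) (nat_lit 0) (p (nat_lit 0x10686058502) (nat_lit 0) (p (nat_lit 0x8605850482) (nat_lit 0) (p (nat_lit 0x160004) (nat_lit 0) (p (nat_lit 0x68512) (nat_lit 0) (p (nat_lit 0x58492) (nat_lit 0) (p (nat_lit 0x48412) (nat_lit 0) (p (nat_lit 0x50312) (nat_lit 0) (p (nat_lit 0x40292) (nat_lit 0) (p (nat_lit 0x30212)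 (nat_lit 0) (p (nat_lit 0x38112) (nat_lit 0) (p (nat_lit 0x28092) (nat_lit 0) (p (nat_lit 0x18012) (nat_lit 0) pn)))))))))))))))))))))))) :=
  Cl.node (nat_lit 0xd1) (nat_lit 2) (by decide +kernel) (ClAll.succ (ClAll.succ ClAll.zero s100) n60)

def n82 : Cl (O (nat_lit 6)) (R (nat_lit 131281))
    (p (nat_lit 0xc9) (nat_lit 1) (p (nat_lit 0x119) (nat_lit 1) (p (nat_lit 0xc1) (nat_lit 0) (p (nat_lit 0x81) (nat_lit 1) (p (nat_lit 0x41) (nat_lit 1) (p (nat_lit 0x10b0a8989089a) (nat_lit 0) (p (nat_lit 0x8a8a0908881a) (nat_lit 0) (p (nat_lit 0x10a090888079a) (nat_lit 0) (p (nat_lit 0x89888807871a) (nat_lit 0) (p (nat_lit 0x8000080000000090787068a) (nat_lit 0) (p (nat_lit 0x10807068602) (nat_lit 0) (p (nat_lit 0x8786860582) (nat_lit 0) (p (nat_lit 0x10686058502) (nat_lit 0) (p (nat_lit 0x8605850482) (nat_lit 0) (p (nat_lit 0x160004) (nat_lit 0) (p (nat_lit 0x68512) (nat_lit 0) (p (nat_lit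 0x58492) (nat_lit 0) (p (nat_lit 0x48412) (nat_lit 0) (p (nat_lit 0x50312) (nat_lit 0) (p (nat_lit 0x40292) (nat_lit 0) (p (nat_lit 0x30212) (nat_lit 0) (p (nat_lit 0x38112) (nat_lit 0) (p (nat_lit 0x28092) (nat_lit 0) (p (nat_lit 0x18012) (nat_lit 0) pn)))))))))))))))))))))))) :=
  Cl.node (nat_lit 0x109) (nat_lit 2) (by decide +kernel) (ClAll.succ (ClAll.succ ClAll.zero n61) s107)

def n83 : Cl (O (nat_lit 6)) (R (nat_lit 131281))
    (p (nat_lit 0x119) (nat_lit 0) (p (nat_lit 0xd1) (nat_lit 0) (p (nat_lit 0x89) (nat_lit 0) (p (nat_lit 0x41) (nat_lit 0) (p (nat_lit 0x10b0a8989089a) (nat_lit 0) (p (nat_lit 0x8a8a0908881a) (nat_lit 0) (p (nat_lit 0x10a090888079a) (nat_lit 0) (p (nat_lit 0x89888807871a) (nat_lit 0) (p (nat_lit 0x8000080000000090787068a) (nat_lit 0) (p (nat_lit 0x10807068602) (nat_lit 0) (p (nat_lit 0x8786860582) (nat_lit 0) (p (nat_lit 0x10686058502) (nat_lit 0)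 (p (nat_lit 0x8605850482) (nat_lit 0) (p (nat_lit 0x160004) (nat_lit 0) (p (nat_lit 0x68512) (nat_lit 0) (p (nat_lit 0x58492) (nat_lit 0) (p (nat_lit 0x48412) (nat_lit 0) (p (nat_lit 0x50312) (nat_lit 0) (p (nat_lit 0x40292) (nat_lit 0) (p (nat_lit 0x30212) (nat_lit 0) (p (nat_lit 0x38112) (nat_lit 0) (p (nat_lit 0x28092) (nat_lit 0) (p (nat_lit 0x18012) (nat_lit 0) pn))))))))))))))))))))))) :=
  Cl.node (nat_lit 0x101) (nat_lit 2) (by decide +kernel) (ClAll.succ (ClAll.succ ClAll.zero n62) n63)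

def n84 : Cl (O (nat_lit 6)) (R (nat_lit 131281))
    (p (nat_lit 0x119) (nat_lit 1) (p (nat_lit 0xd1) (nat_lit 0) (p (nat_lit 0x89) (nat_lit 0) (p (nat_lit 0x41) (nat_lit 0) (p (nat_lit 0x10b0a8989089a) (nat_lit 0) (p (nat_lit 0x8a8a0908881a) (nat_lit 0) (p (nat_lit 0x10a090888079a) (nat_lit 0) (p (nat_lit 0x89888807871a) (nat_lit 0) (p (nat_lit 0x8000080000000090787068a) (nat_lit 0) (p (nat_lit 0x10807068602) (nat_lit 0) (p (nat_lit 0x8786860582) (nat_lit 0) (p (nat_lit 0x10686058502) (nat_lit 0) (p (nat_lit 0x8605850482) (nat_lit 0) (p (nat_lit 0x160004) (nat_lit 0) (p (nat_lit 0x68512) (nat_lit 0) (p (nat_lit 0x58492) (nat_lit 0) (p (nat_lit 0x48412) (nat_lit 0) (p (nat_lit 0x50312) (nat_lit 0) (p (nat_lit 0x40292) (nat_lit 0) (p (nat_lit 0x30212) (nat_lit 0) (p (nat_lit 0x38112) (nat_lit 0) (p (nat_lit 0x28092) (nat_lit 0) (p (nat_lit 0x18012) (nat_lit 0) pn)))))))))))))))))))))))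 :=
  Cl.node (nat_lit 0xc1) (nat_lit 2) (by decide +kernel) (ClAll.succ (ClAll.succ ClAll.zero n64) n65)

def n85 : Cl (O (nat_lit 6)) (R (nat_lit 131281))
    (p (nat_lit 0x111) (nat_lit 0) (p (nat_lit 0xd1) (nat_lit 1) (p (nat_lit 0x89) (nat_lit 0) (p (nat_lit 0x41) (nat_lit 0) (p (nat_lit 0x10b0a8989089a) (nat_lit 0) (p (nat_lit 0x8a8a0908881a) (nat_lit 0) (p (nat_lit 0x10a090888079a) (nat_lit 0) (p (nat_lit 0x89888807871a) (nat_lit 0) (p (nat_lit 0x8000080000000090787068a) (nat_lit 0) (p (nat_lit 0x10807068602) (nat_lit 0) (p (nat_lit 0x8786860582) (nat_lit 0) (p (nat_lit 0x10686058502) (nat_lit 0) (p (nat_lit 0x8605850482) (nat_lit 0) (p (nat_lit 0x160004) (nat_lit 0) (p (nat_lit 0x68512) (nat_lit 0) (p (nat_lit 0x58492) (nat_lit 0) (p (nat_lit 0x48412) (nat_lit 0) (p (nat_lit 0x50312) (nat_lit 0) (p (nat_lit 0x40292) (nat_lit 0) (p (nat_lit 0x30212) (nat_lit 0) (p (nat_lit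 0x38112) (nat_lit 0) (p (nat_lit 0x28092) (nat_lit 0) (p (nat_lit 0x18012) (nat_lit 0) pn))))))))))))))))))))))) :=
  Cl.node (nat_lit 0x101) (nat_lit 2) (by decide +kernel) (ClAll.succ (ClAll.succ ClAll.zero n66) n67)

def n86 : Cl (O (nat_lit 6)) (R (nat_lit 131281))
    (p (nat_lit 0x111) (nat_lit 1) (p (nat_lit 0xd1) (nat_lit 1) (p (nat_lit 0x89) (nat_lit 0) (p (nat_lit 0x41) (nat_lit 0) (p (nat_lit 0x10b0a8989089a) (nat_lit 0) (p (nat_lit 0x8a8a0908881a) (nat_lit 0) (p (nat_lit 0x10a090888079a) (nat_lit 0) (p (nat_lit 0x89888807871a) (nat_lit 0) (p (nat_lit 0x8000080000000090787068a) (nat_lit 0) (p (nat_lit 0x10807068602) (nat_lit 0) (p (nat_lit 0x8786860582) (nat_lit 0) (p (nat_lit 0x10686058502) (nat_lit 0) (p (nat_lit 0x8605850482) (nat_lit 0) (p (nat_lit 0x160004) (nat_lit 0) (p (nat_lit 0x68512) (nat_lit 0) (p (nat_lit 0x58492) (nat_lit 0) (p (nat_lit 0x48412) (nat_lit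 0) (p (nat_lit 0x50312) (nat_lit 0) (p (nat_lit 0x40292) (nat_lit 0) (p (nat_lit 0x30212) (nat_lit 0) (p (nat_lit 0x38112) (nat_lit 0) (p (nat_lit 0x28092) (nat_lit 0) (p (nat_lit 0x18012) (nat_lit 0) pn))))))))))))))))))))))) :=
  Cl.node (nat_lit 0x81) (nat_lit 2) (by decide +kernel) (ClAll.succ (ClAll.succ ClAll.zero s39) n68)

def n87 : Cl (O (nat_lit 6)) (R (nat_lit 131281))
    (p (nat_lit 0x119) (nat_lit 0) (p (nat_lit 0xc9) (nat_lit 0) (p (nat_lit 0x89) (nat_lit 1) (p (nat_lit 0x41) (nat_lit 0) (p (nat_lit 0x10b0a8989089a) (nat_lit 0) (p (nat_lit 0x8a8a0908881a) (nat_lit 0) (p (nat_lit 0x10a090888079a) (nat_lit 0) (p (nat_lit 0x89888807871a) (nat_lit 0) (p (nat_lit 0x8000080000000090787068a) (nat_lit 0) (p (nat_lit 0x10807068602) (nat_lit 0) (p (nat_lit 0x8786860582) (nat_lit 0) (p (nat_lit 0x10686058502) (nat_lit 0) (p (nat_lit 0x8605850482) (nat_lit 0) (p (nat_lit 0x160004)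 (nat_lit 0) (p (nat_lit 0x68512) (nat_lit 0) (p (nat_lit 0x58492) (nat_lit 0) (p (nat_lit 0x48412) (nat_lit 0) (p (nat_lit 0x50312) (nat_lit 0) (p (nat_lit 0x40292) (nat_lit 0) (p (nat_lit 0x30212) (nat_lit 0) (p (nat_lit 0x38112) (nat_lit 0) (p (nat_lit 0x28092) (nat_lit 0) (p (nat_lit 0x18012) (nat_lit 0) pn))))))))))))))))))))))) :=
  Cl.node (nat_lit 0x101) (nat_lit 2) (by decide +kernel) (ClAll.succ (ClAll.succ ClAll.zero n69) n70)

def n88 : Cl (O (nat_lit 6)) (R (nat_lit 131281))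
    (p (nat_lit 0x119) (nat_lit 1) (p (nat_lit 0xc9) (nat_lit 0) (p (nat_lit 0x89) (nat_lit 1) (p (nat_lit 0x41) (nat_lit 0) (p (nat_lit 0x10b0a8989089a) (nat_lit 0) (p (nat_lit 0x8a8a0908881a) (nat_lit 0) (p (nat_lit 0x10a090888079a) (nat_lit 0) (p (nat_lit 0x89888807871a) (nat_lit 0) (p (nat_lit 0x8000080000000090787068a) (nat_lit 0) (p (nat_lit 0x10807068602) (nat_lit 0) (p (nat_lit 0x8786860582) (nat_lit 0) (p (nat_lit 0x10686058502) (nat_lit 0) (p (nat_lit 0x8605850482) (nat_lit 0) (p (nat_lit 0x160004) (nat_lit 0) (p (nat_lit 0x68512) (nat_lit 0) (p (nat_lit 0x58492) (nat_lit 0) (p (nat_lit 0x48412) (nat_lit 0) (p (nat_lit 0x50312) (nat_lit 0) (p (nat_lit 0x40292) (nat_lit 0) (p (nat_lit 0x30212) (nat_lit 0) (p (nat_lit 0x38112) (nat_lit 0) (p (nat_lit 0x28092) (nat_lit 0) (p (nat_lit 0x18012) (nat_lit 0) pn))))))))))))))))))))))) :=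
  Cl.node (nat_lit 0xc1) (nat_lit 2) (by decide +kernel) (ClAll.succ (ClAll.succ ClAll.zero n71) n72)

def n89 : Cl (O (nat_lit 6)) (R (nat_lit 131281))
    (p (nat_lit 0x119) (nat_lit 0) (p (nat_lit 0xd1) (nat_lit 0) (p (nat_lit 0x81) (nat_lit 0) (p (nat_lit 0x41) (nat_lit 1) (p (nat_lit 0x10b0a8989089a) (nat_lit 0) (p (nat_lit 0x8a8a0908881a) (nat_lit 0) (p (nat_lit 0x10a090888079a) (nat_lit 0) (p (nat_lit 0x89888807871a) (nat_lit 0) (p (nat_lit 0x8000080000000090787068a) (nat_lit 0) (p (nat_lit 0x10807068602) (nat_lit 0) (p (nat_lit 0x8786860582) (nat_lit 0) (p (nat_lit 0x10686058502) (nat_lit 0) (p (nat_lit 0x8605850482) (nat_lit 0) (p (nat_lit 0x160004) (nat_lit 0) (p (nat_lit 0x68512) (nat_lit 0) (p (nat_lit 0x58492) (nat_lit 0) (p (nat_lit 0x48412) (nat_lit 0) (p (nat_lit 0x50312) (nat_lit 0) (p (nat_lit 0x40292) (nat_lit 0) (p (nat_lit 0x30212) (nat_lit 0) (p (nat_lit 0x38112)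 (nat_lit 0) (p (nat_lit 0x28092) (nat_lit 0) (p (nat_lit 0x18012) (nat_lit 0) pn))))))))))))))))))))))) :=
  Cl.node (nat_lit 0x101) (nat_lit 2) (by decide +kernel) (ClAll.succ (ClAll.succ ClAll.zero n73) n74)

def n90 : Cl (O (nat_lit 6)) (R (nat_lit 131281))
    (p (nat_lit 0x119) (nat_lit 1) (p (nat_lit 0xd1) (nat_lit 0) (p (nat_lit 0x81) (nat_lit 0) (p (nat_lit 0x41) (nat_lit 1) (p (nat_lit 0x10b0a8989089a) (nat_lit 0) (p (nat_lit 0x8a8a0908881a) (nat_lit 0) (p (nat_lit 0x10a090888079a) (nat_lit 0) (p (nat_lit 0x89888807871a) (nat_lit 0) (p (nat_lit 0x8000080000000090787068a) (nat_lit 0) (p (nat_lit 0x10807068602) (nat_lit 0) (p (nat_lit 0x8786860582) (nat_lit 0) (p (nat_lit 0x10686058502) (nat_lit 0) (p (nat_lit 0x8605850482) (nat_lit 0) (p (nat_lit 0x160004) (nat_lit 0) (p (nat_lit 0x68512) (nat_lit 0) (p (nat_lit 0x58492) (nat_lit 0) (p (nat_lit 0x48412) (nat_lit 0) (p (nat_lit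 0x50312) (nat_lit 0) (p (nat_lit 0x40292) (nat_lit 0) (p (nat_lit 0x30212) (nat_lit 0) (p (nat_lit 0x38112) (nat_lit 0) (p (nat_lit 0x28092) (nat_lit 0) (p (nat_lit 0x18012) (nat_lit 0) pn))))))))))))))))))))))) :=
  Cl.node (nat_lit 0xc1) (nat_lit 2) (by decide +kernel) (ClAll.succ (ClAll.succ ClAll.zero n75) n76)

def n91 : Cl (O (nat_lit 6)) (R (nat_lit 131281))
    (p (nat_lit 0x111) (nat_lit 0) (p (nat_lit 0xd1) (nat_lit 1) (p (nat_lit 0x81) (nat_lit 0) (p (nat_lit 0x41) (nat_lit 1) (p (nat_lit 0x10b0a8989089a) (nat_lit 0) (p (nat_lit 0x8a8a0908881a) (nat_lit 0) (p (nat_lit 0x10a090888079a) (nat_lit 0) (p (nat_lit 0x89888807871a) (nat_lit 0) (p (nat_lit 0x8000080000000090787068a) (nat_lit 0) (p (nat_lit 0x10807068602) (nat_lit 0) (p (nat_lit 0x8786860582) (nat_lit 0) (p (nat_lit 0x10686058502) (nat_lit 0) (p (nat_lit 0x8605850482) (nat_lit 0) (p (nat_lit 0x160004) (nat_lit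 0) (p (nat_lit 0x68512) (nat_lit 0) (p (nat_lit 0x58492) (nat_lit 0) (p (nat_lit 0x48412) (nat_lit 0) (p (nat_lit 0x50312) (nat_lit 0) (p (nat_lit 0x40292) (nat_lit 0) (p (nat_lit 0x30212) (nat_lit 0) (p (nat_lit 0x38112) (nat_lit 0) (p (nat_lit 0x28092) (nat_lit 0) (p (nat_lit 0x18012) (nat_lit 0) pn))))))))))))))))))))))) :=
  Cl.node (nat_lit 0x101) (nat_lit 2) (by decide +kernel) (ClAll.succ (ClAll.succ ClAll.zero n77) n78)

def n92 : Cl (O (nat_lit 6)) (R (nat_lit 131281))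
    (p (nat_lit 0x111) (nat_lit 1) (p (nat_lit 0xd1) (nat_lit 1) (p (nat_lit 0x81) (nat_lit 0) (p (nat_lit 0x41) (nat_lit 1) (p (nat_lit 0x10b0a8989089a) (nat_lit 0) (p (nat_lit 0x8a8a0908881a) (nat_lit 0) (p (nat_lit 0x10a090888079a) (nat_lit 0) (p (nat_lit 0x89888807871a) (nat_lit 0) (p (nat_lit 0x8000080000000090787068a) (nat_lit 0) (p (nat_lit 0x10807068602) (nat_lit 0) (p (nat_lit 0x8786860582) (nat_lit 0) (p (nat_lit 0x10686058502) (nat_lit 0) (p (nat_lit 0x8605850482) (nat_lit 0) (p (nat_lit 0x160004) (nat_lit 0) (p (nat_lit 0x68512) (nat_lit 0) (p (nat_lit 0x58492) (nat_lit 0) (p (nat_lit 0x48412) (nat_lit 0) (p (nat_lit 0x50312) (nat_lit 0) (p (nat_lit 0x40292) (nat_lit 0) (p (nat_lit 0x30212) (nat_lit 0) (p (nat_lit 0x38112) (nat_lit 0) (p (nat_lit 0x28092) (nat_lit 0) (p (nat_lit 0x18012) (nat_lit 0) pn))))))))))))))))))))))) :=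
  Cl.node (nat_lit 0x89) (nat_lit 2) (by decide +kernel) (ClAll.succ (ClAll.succ ClAll.zero s94) s95)

def n93 : Cl (O (nat_lit 6)) (R (nat_lit 131281))
    (p (nat_lit 0x119) (nat_lit 0) (p (nat_lit 0xc1) (nat_lit 0) (p (nat_lit 0x81) (nat_lit 1) (p (nat_lit 0x41) (nat_lit 1) (p (nat_lit 0x10b0a8989089a) (nat_lit 0) (p (nat_lit 0x8a8a0908881a) (nat_lit 0) (p (nat_lit 0x10a090888079a) (nat_lit 0) (p (nat_lit 0x89888807871a) (nat_lit 0) (p (nat_lit 0x8000080000000090787068a) (nat_lit 0) (p (nat_lit 0x10807068602) (nat_lit 0) (p (nat_lit 0x8786860582) (nat_lit 0) (p (nat_lit 0x10686058502) (nat_lit 0) (p (nat_lit 0x8605850482) (nat_lit 0) (p (nat_lit 0x160004) (nat_lit 0) (p (nat_lit 0x68512) (nat_lit 0) (p (nat_lit 0x58492) (nat_lit 0) (p (nat_lit 0x48412) (nat_lit 0) (p (nat_lit 0x50312) (nat_lit 0) (p (nat_lit 0x40292) (nat_lit 0) (p (nat_lit 0x30212) (nat_lit 0) (p (nat_lit 0x38112)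 (nat_lit 0) (p (nat_lit 0x28092) (nat_lit 0) (p (nat_lit 0x18012) (nat_lit 0) pn))))))))))))))))))))))) :=
  Cl.node (nat_lit 0x101) (nat_lit 2) (by decide +kernel) (ClAll.succ (ClAll.succ ClAll.zero n79) n80)

def n94 : Cl (O (nat_lit 6)) (R (nat_lit 131281))
    (p (nat_lit 0x119) (nat_lit 1) (p (nat_lit 0xc1) (nat_lit 0) (p (nat_lit 0x81) (nat_lit 1) (p (nat_lit 0x41) (nat_lit 1) (p (nat_lit 0x10b0a8989089a) (nat_lit 0) (p (nat_lit 0x8a8a0908881a) (nat_lit 0) (p (nat_lit 0x10a090888079a) (nat_lit 0) (p (nat_lit 0x89888807871a) (nat_lit 0) (p (nat_lit 0x8000080000000090787068a) (nat_lit 0) (p (nat_lit 0x10807068602) (nat_lit 0) (p (nat_lit 0x8786860582) (nat_lit 0) (p (nat_lit 0x10686058502) (nat_lit 0) (p (nat_lit 0x8605850482) (nat_lit 0) (p (nat_lit 0x160004) (nat_lit 0) (p (nat_lit 0x68512) (nat_lit 0) (p (nat_lit 0x58492) (nat_lit 0) (p (nat_lit 0x48412) (nat_lit 0) (p (nat_lit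 0x50312) (nat_lit 0) (p (nat_lit 0x40292) (nat_lit 0) (p (nat_lit 0x30212) (nat_lit 0) (p (nat_lit 0x38112) (nat_lit 0) (p (nat_lit 0x28092) (nat_lit 0) (p (nat_lit 0x18012) (nat_lit 0) pn))))))))))))))))))))))) :=
  Cl.node (nat_lit 0xc9) (nat_lit 2) (by decide +kernel) (ClAll.succ (ClAll.succ ClAll.zero n81) n82)

def n95 : Cl (O (nat_lit 6)) (R (nat_lit 131281))
    (p (nat_lit 0xd1) (nat_lit 0) (p (nat_lit 0x89) (nat_lit 0) (p (nat_lit 0x41) (nat_lit 0) (p (nat_lit 0x10b0a8989089a) (nat_lit 0) (p (nat_lit 0x8a8a0908881a) (nat_lit 0) (p (nat_lit 0x10a090888079a) (nat_lit 0) (p (nat_lit 0x89888807871a) (nat_lit 0) (p (nat_lit 0x8000080000000090787068a) (nat_lit 0) (p (nat_lit 0x10807068602) (nat_lit 0) (p (nat_lit 0x8786860582) (nat_lit 0) (p (nat_lit 0x10686058502) (nat_lit 0) (p (nat_lit 0x8605850482) (nat_lit 0) (p (nat_lit 0x160004) (nat_lit 0) (p (nat_lit 0x68512) (nat_lit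 0) (p (nat_lit 0x58492) (nat_lit 0) (p (nat_lit 0x48412) (nat_lit 0) (p (nat_lit 0x50312) (nat_lit 0) (p (nat_lit 0x40292) (nat_lit 0) (p (nat_lit 0x30212) (nat_lit 0) (p (nat_lit 0x38112) (nat_lit 0) (p (nat_lit 0x28092) (nat_lit 0) (p (nat_lit 0x18012) (nat_lit 0) pn)))))))))))))))))))))) :=
  Cl.node (nat_lit 0x119) (nat_lit 2) (by decide +kernel) (ClAll.succ (ClAll.succ ClAll.zero n83) n84)

def n96 : Cl (O (nat_lit 6)) (R (nat_lit 131281))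
    (p (nat_lit 0xd1) (nat_lit 1) (p (nat_lit 0x89) (nat_lit 0) (p (nat_lit 0x41) (nat_lit 0) (p (nat_lit 0x10b0a8989089a) (nat_lit 0) (p (nat_lit 0x8a8a0908881a) (nat_lit 0) (p (nat_lit 0x10a090888079a) (nat_lit 0) (p (nat_lit 0x89888807871a) (nat_lit 0) (p (nat_lit 0x8000080000000090787068a) (nat_lit 0) (p (nat_lit 0x10807068602) (nat_lit 0) (p (nat_lit 0x8786860582) (nat_lit 0) (p (nat_lit 0x10686058502) (nat_lit 0) (p (nat_lit 0x8605850482) (nat_lit 0) (p (nat_lit 0x160004) (nat_lit 0) (p (nat_lit 0x68512) (nat_lit 0) (p (nat_lit 0x58492) (nat_lit 0) (p (nat_lit 0x48412) (nat_lit 0) (p (nat_lit 0x50312) (nat_lit 0) (p (nat_lit 0x40292) (nat_lit 0) (p (nat_lit 0x30212) (nat_lit 0) (p (nat_lit 0x38112) (nat_lit 0) (p (nat_lit 0x28092) (nat_lit 0) (p (nat_lit 0x18012) (nat_lit 0) pn)))))))))))))))))))))) :=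
  Cl.node (nat_lit 0x111) (nat_lit 2) (by decide +kernel) (ClAll.succ (ClAll.succ ClAll.zero n85) n86)

def n97 : Cl (O (nat_lit 6)) (R (nat_lit 131281))
    (p (nat_lit 0xc9) (nat_lit 0) (p (nat_lit 0x89) (nat_lit 1) (p (nat_lit 0x41) (nat_lit 0) (p (nat_lit 0x10b0a8989089a) (nat_lit 0) (p (nat_lit 0x8a8a0908881a) (nat_lit 0) (p (nat_lit 0x10a090888079a) (nat_lit 0) (p (nat_lit 0x89888807871a) (nat_lit 0) (p (nat_lit 0x8000080000000090787068a) (nat_lit 0) (p (nat_lit 0x10807068602) (nat_lit 0) (p (nat_lit 0x8786860582) (nat_lit 0) (p (nat_lit 0x10686058502) (nat_lit 0) (p (nat_lit 0x8605850482) (nat_lit 0) (p (nat_lit 0x160004) (nat_lit 0) (p (nat_lit 0x68512) (nat_lit 0) (p (nat_lit 0x58492) (nat_lit 0) (p (nat_lit 0x48412) (nat_lit 0) (p (nat_lit 0x50312) (nat_lit 0) (p (nat_lit 0x40292) (nat_lit 0) (p (nat_lit 0x30212) (nat_lit 0) (p (nat_lit 0x38112) (nat_lit 0) (p (nat_lit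 0x28092) (nat_lit 0) (p (nat_lit 0x18012) (nat_lit 0) pn)))))))))))))))))))))) :=
  Cl.node (nat_lit 0x119) (nat_lit 2) (by decide +kernel) (ClAll.succ (ClAll.succ ClAll.zero n87) n88)

def n98 : Cl (O (nat_lit 6)) (R (nat_lit 131281))
    (p (nat_lit 0xd1) (nat_lit 0) (p (nat_lit 0x81) (nat_lit 0) (p (nat_lit 0x41) (nat_lit 1) (p (nat_lit 0x10b0a8989089a) (nat_lit 0) (p (nat_lit 0x8a8a0908881a) (nat_lit 0) (p (nat_lit 0x10a090888079a) (nat_lit 0) (p (nat_lit 0x89888807871a) (nat_lit 0) (p (nat_lit 0x8000080000000090787068a) (nat_lit 0) (p (nat_lit 0x10807068602) (nat_lit 0) (p (nat_lit 0x8786860582) (nat_lit 0) (p (nat_lit 0x10686058502) (nat_lit 0) (p (nat_lit 0x8605850482) (nat_lit 0) (p (nat_lit 0x160004) (nat_lit 0) (p (nat_lit 0x68512) (nat_lit 0) (p (nat_lit 0x58492) (nat_lit 0) (p (nat_lit 0x48412) (nat_lit 0) (p (nat_lit 0x50312) (nat_lit 0) (p (nat_lit 0x40292) (nat_lit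 0) (p (nat_lit 0x30212) (nat_lit 0) (p (nat_lit 0x38112) (nat_lit 0) (p (nat_lit 0x28092) (nat_lit 0) (p (nat_lit 0x18012) (nat_lit 0) pn)))))))))))))))))))))) :=
  Cl.node (nat_lit 0x119) (nat_lit 2) (by decide +kernel) (ClAll.succ (ClAll.succ ClAll.zero n89) n90)

def n99 : Cl (O (nat_lit 6)) (R (nat_lit 131281))
    (p (nat_lit 0xd1) (nat_lit 1) (p (nat_lit 0x81) (nat_lit 0) (p (nat_lit 0x41) (nat_lit 1) (p (nat_lit 0x10b0a8989089a) (nat_lit 0) (p (nat_lit 0x8a8a0908881a) (nat_lit 0) (p (nat_lit 0x10a090888079a) (nat_lit 0) (p (nat_lit 0x89888807871a) (nat_lit 0) (p (nat_lit 0x8000080000000090787068a) (nat_lit 0) (p (nat_lit 0x10807068602) (nat_lit 0) (p (nat_lit 0x8786860582) (nat_lit 0) (p (nat_lit 0x10686058502) (nat_lit 0) (p (nat_lit 0x8605850482) (nat_lit 0) (p (nat_lit 0x160004) (nat_lit 0) (p (nat_lit 0x68512) (nat_lit 0) (p (nat_lit 0x58492) (nat_lit 0) (p (nat_lit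 0x48412) (nat_lit 0) (p (nat_lit 0x50312) (nat_lit 0) (p (nat_lit 0x40292) (nat_lit 0) (p (nat_lit 0x30212) (nat_lit 0) (p (nat_lit 0x38112) (nat_lit 0) (p (nat_lit 0x28092) (nat_lit 0) (p (nat_lit 0x18012) (nat_lit 0) pn)))))))))))))))))))))) :=
  Cl.node (nat_lit 0x111) (nat_lit 2) (by decide +kernel) (ClAll.succ (ClAll.succ ClAll.zero n91) n92)

def n100 : Cl (O (nat_lit 6)) (R (nat_lit 131281))
    (p (nat_lit 0xc1) (nat_lit 0) (p (nat_lit 0x81) (nat_lit 1) (p (nat_lit 0x41) (nat_lit 1) (p (nat_lit 0x10b0a8989089a) (nat_lit 0) (p (nat_lit 0x8a8a0908881a) (nat_lit 0) (p (nat_lit 0x10a090888079a) (nat_lit 0) (p (nat_lit 0x89888807871a) (nat_lit 0) (p (nat_lit 0x8000080000000090787068a) (nat_lit 0) (p (nat_lit 0x10807068602) (nat_lit 0) (p (nat_lit 0x8786860582) (nat_lit 0) (p (nat_lit 0x10686058502) (nat_lit 0) (p (nat_lit 0x8605850482) (nat_lit 0) (p (nat_lit 0x160004) (nat_lit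 0) (p (nat_lit 0x68512) (nat_lit 0) (p (nat_lit 0x58492) (nat_lit 0) (p (nat_lit 0x48412) (nat_lit 0) (p (nat_lit 0x50312) (nat_lit 0) (p (nat_lit 0x40292) (nat_lit 0) (p (nat_lit 0x30212) (nat_lit 0) (p (nat_lit 0x38112) (nat_lit 0) (p (nat_lit 0x28092) (nat_lit 0) (p (nat_lit 0x18012) (nat_lit 0) pn)))))))))))))))))))))) :=
  Cl.node (nat_lit 0x119) (nat_lit 2) (by decide +kernel) (ClAll.succ (ClAll.succ ClAll.zero n93) n94)

def n101 : Cl (O (nat_lit 6)) (R (nat_lit 131281))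
    (p (nat_lit 0x89) (nat_lit 0) (p (nat_lit 0x41) (nat_lit 0) (p (nat_lit 0x10b0a8989089a) (nat_lit 0) (p (nat_lit 0x8a8a0908881a) (nat_lit 0) (p (nat_lit 0x10a090888079a) (nat_lit 0) (p (nat_lit 0x89888807871a) (nat_lit 0) (p (nat_lit 0x8000080000000090787068a) (nat_lit 0) (p (nat_lit 0x10807068602) (nat_lit 0) (p (nat_lit 0x8786860582) (nat_lit 0) (p (nat_lit 0x10686058502) (nat_lit 0) (p (nat_lit 0x8605850482) (nat_lit 0) (p (nat_lit 0x160004) (nat_lit 0) (p (nat_lit 0x68512) (nat_lit 0) (p (nat_lit 0x58492) (nat_lit 0) (p (nat_lit 0x48412) (nat_lit 0) (p (nat_lit 0x50312) (nat_lit 0) (p (nat_lit 0x40292) (nat_lit 0) (p (nat_lit 0x30212) (nat_lit 0) (p (nat_lit 0x38112) (nat_lit 0) (p (nat_lit 0x28092) (nat_lit 0) (p (nat_lit 0x18012) (nat_lit 0) pn))))))))))))))))))))) :=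
  Cl.node (nat_lit 0xd1) (nat_lit 2) (by decide +kernel) (ClAll.succ (ClAll.succ ClAll.zero n95) n96)

def n102 : Cl (O (nat_lit 6)) (R (nat_lit 131281))
    (p (nat_lit 0x89) (nat_lit 1) (p (nat_lit 0x41) (nat_lit 0) (p (nat_lit 0x10b0a8989089a) (nat_lit 0) (p (nat_lit 0x8a8a0908881a) (nat_lit 0) (p (nat_lit 0x10a090888079a) (nat_lit 0) (p (nat_lit 0x89888807871a) (nat_lit 0) (p (nat_lit 0x8000080000000090787068a) (nat_lit 0) (p (nat_lit 0x10807068602) (nat_lit 0) (p (nat_lit 0x8786860582) (nat_lit 0) (p (nat_lit 0x10686058502) (nat_lit 0) (p (nat_lit 0x8605850482) (nat_lit 0) (p (nat_lit 0x160004) (nat_lit 0) (p (nat_lit 0x68512) (nat_lit 0) (p (nat_lit 0x58492) (nat_lit 0) (p (nat_lit 0x48412) (nat_lit 0) (p (nat_lit 0x50312) (nat_lit 0) (p (nat_lit 0x40292) (nat_lit 0) (p (nat_lit 0x30212) (nat_lit 0) (p (nat_lit 0x38112) (nat_lit 0) (p (nat_lit 0x28092) (nat_lit 0) (p (nat_lit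 0x18012) (nat_lit 0) pn))))))))))))))))))))) :=
  Cl.node (nat_lit 0xc9) (nat_lit 2) (by decide +kernel) (ClAll.succ (ClAll.succ ClAll.zero n97) s60)

def n103 : Cl (O (nat_lit 6)) (R (nat_lit 131281))
    (p (nat_lit 0x81) (nat_lit 0) (p (nat_lit 0x41) (nat_lit 1) (p (nat_lit 0x10b0a8989089a) (nat_lit 0) (p (nat_lit 0x8a8a0908881a) (nat_lit 0) (p (nat_lit 0x10a090888079a) (nat_lit 0) (p (nat_lit 0x89888807871a) (nat_lit 0) (p (nat_lit 0x8000080000000090787068a) (nat_lit 0) (p (nat_lit 0x10807068602) (nat_lit 0) (p (nat_lit 0x8786860582) (nat_lit 0) (p (nat_lit 0x10686058502) (nat_lit 0) (p (nat_lit 0x8605850482) (nat_lit 0) (p (nat_lit 0x160004) (nat_lit 0) (p (nat_lit 0x68512) (nat_lit 0) (p (nat_lit 0x58492) (nat_lit 0) (p (nat_lit 0x48412) (nat_lit 0) (p (nat_lit 0x50312) (nat_lit 0) (p (nat_lit 0x40292) (nat_lit 0) (p (nat_lit 0x30212) (nat_lit 0) (p (nat_lit 0x38112) (nat_lit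 0) (p (nat_lit 0x28092) (nat_lit 0) (p (nat_lit 0x18012) (nat_lit 0) pn))))))))))))))))))))) :=
  Cl.node (nat_lit 0xd1) (nat_lit 2) (by decide +kernel) (ClAll.succ (ClAll.succ ClAll.zero n98) n99)

def n104 : Cl (O (nat_lit 6)) (R (nat_lit 131281))
    (p (nat_lit 0x81) (nat_lit 1) (p (nat_lit 0x41) (nat_lit 1) (p (nat_lit 0x10b0a8989089a) (nat_lit 0) (p (nat_lit 0x8a8a0908881a) (nat_lit 0) (p (nat_lit 0x10a090888079a) (nat_lit 0) (p (nat_lit 0x89888807871a) (nat_lit 0) (p (nat_lit 0x8000080000000090787068a) (nat_lit 0) (p (nat_lit 0x10807068602) (nat_lit 0) (p (nat_lit 0x8786860582) (nat_lit 0) (p (nat_lit 0x10686058502) (nat_lit 0) (p (nat_lit 0x8605850482) (nat_lit 0) (p (nat_lit 0x160004) (nat_lit 0) (p (nat_lit 0x68512) (nat_lit 0) (p (nat_lit 0x58492) (nat_lit 0) (p (nat_lit 0x48412) (nat_lit 0) (p (nat_lit 0x50312) (nat_lit 0) (p (nat_lit 0x40292) (nat_lit 0) (p (nat_lit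 0x30212) (nat_lit 0) (p (nat_lit 0x38112) (nat_lit 0) (p (nat_lit 0x28092) (nat_lit 0) (p (nat_lit 0x18012) (nat_lit 0) pn))))))))))))))))))))) :=
  Cl.node (nat_lit 0xc1) (nat_lit 2) (by decide +kernel) (ClAll.succ (ClAll.succ ClAll.zero n100) s108)

def n105 : Cl (O (nat_lit 6)) (R (nat_lit 131281))
    (p (nat_lit 0x41) (nat_lit 0) (p (nat_lit 0x10b0a8989089a) (nat_lit 0) (p (nat_lit 0x8a8a0908881a) (nat_lit 0) (p (nat_lit 0x10a090888079a) (nat_lit 0) (p (nat_lit 0x89888807871a) (nat_lit 0) (p (nat_lit 0x8000080000000090787068a) (nat_lit 0) (p (nat_lit 0x10807068602) (nat_lit 0) (p (nat_lit 0x8786860582) (nat_lit 0) (p (nat_lit 0x10686058502) (nat_lit 0) (p (nat_lit 0x8605850482) (nat_lit 0) (p (nat_lit 0x160004) (nat_lit 0) (p (nat_lit 0x68512) (nat_lit 0) (p (nat_lit 0x58492) (nat_lit 0) (p (nat_lit 0x48412) (nat_lit 0) (p (nat_lit 0x50312) (nat_lit 0) (p (nat_lit 0x40292)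 (nat_lit 0) (p (nat_lit 0x30212) (nat_lit 0) (p (nat_lit 0x38112) (nat_lit 0) (p (nat_lit 0x28092) (nat_lit 0) (p (nat_lit 0x18012) (nat_lit 0) pn)))))))))))))))))))) :=
  Cl.node (nat_lit 0x89) (nat_lit 2) (by decide +kernel) (ClAll.succ (ClAll.succ ClAll.zero n101) n102)

def n106 : Cl (O (nat_lit 6)) (R (nat_lit 131281))
    (p (nat_lit 0x41) (nat_lit 1) (p (nat_lit 0x10b0a8989089a) (nat_lit 0) (p (nat_lit 0x8a8a0908881a) (nat_lit 0) (p (nat_lit 0x10a090888079a) (nat_lit 0) (p (nat_lit 0x89888807871a) (nat_lit 0) (p (nat_lit 0x8000080000000090787068a) (nat_lit 0) (p (nat_lit 0x10807068602) (nat_lit 0) (p (nat_lit 0x8786860582) (nat_lit 0) (p (nat_lit 0x10686058502) (nat_lit 0) (p (nat_lit 0x8605850482) (nat_lit 0) (p (nat_lit 0x160004) (nat_lit 0) (p (nat_lit 0x68512) (nat_lit 0) (p (nat_lit 0x58492) (nat_lit 0) (p (nat_lit 0x48412) (nat_lit 0) (p (nat_lit 0x50312) (nat_lit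 0) (p (nat_lit 0x40292) (nat_lit 0) (p (nat_lit 0x30212) (nat_lit 0) (p (nat_lit 0x38112) (nat_lit 0) (p (nat_lit 0x28092) (nat_lit 0) (p (nat_lit 0x18012) (nat_lit 0) pn)))))))))))))))))))) :=
  Cl.node (nat_lit 0x81) (nat_lit 2) (by decide +kernel) (ClAll.succ (ClAll.succ ClAll.zero n103) n104)

def n107 : Cl (O (nat_lit 6)) (R (nat_lit 131281))
    (p (nat_lit 0x10b0a8989089a) (nat_lit 0) (p (nat_lit 0x8a8a0908881a) (nat_lit 0) (p (nat_lit 0x10a090888079a) (nat_lit 0) (p (nat_lit 0x89888807871a) (nat_lit 0) (p (nat_lit 0x8000080000000090787068a) (nat_lit 0) (p (nat_lit 0x10807068602) (nat_lit 0) (p (nat_lit 0x8786860582) (nat_lit 0) (p (nat_lit 0x10686058502) (nat_lit 0) (p (nat_lit 0x8605850482) (nat_lit 0) (p (nat_lit 0x160004) (nat_lit 0) (p (nat_lit 0x68512) (nat_lit 0) (p (nat_lit 0x58492) (nat_lit 0) (p (nat_lit 0x48412) (nat_lit 0) (p (nat_lit 0x50312) (nat_lit 0) (p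 (nat_lit 0x40292) (nat_lit 0) (p (nat_lit 0x30212) (nat_lit 0) (p (nat_lit 0x38112) (nat_lit 0) (p (nat_lit 0x28092) (nat_lit 0) (p (nat_lit 0x18012) (nat_lit 0) pn))))))))))))))))))) :=
  Cl.node (nat_lit 0x41) (nat_lit 2) (by decide +kernel) (ClAll.succ (ClAll.succ ClAll.zero n105) n106)

def n108 : Cl (O (nat_lit 6)) (R (nat_lit 131281))
    (p (nat_lit 0x8a8a0908881a) (nat_lit 0) (p (nat_lit 0x10a090888079a) (nat_lit 0) (p (nat_lit 0x89888807871a) (nat_lit 0) (p (nat_lit 0x8000080000000090787068a) (nat_lit 0) (p (nat_lit 0x10807068602) (nat_lit 0) (p (nat_lit 0x8786860582) (nat_lit 0) (p (nat_lit 0x10686058502) (nat_lit 0) (p (nat_lit 0x8605850482) (nat_lit 0) (p (nat_lit 0x160004) (nat_lit 0) (p (nat_lit 0x68512) (nat_lit 0) (p (nat_lit 0x58492) (nat_lit 0) (p (nat_lit 0x48412) (nat_lit 0) (p (nat_lit 0x50312) (nat_lit 0) (p (nat_lit 0x40292) (nat_lit 0) (p (nat_lit 0x30212)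 (nat_lit 0) (p (nat_lit 0x38112) (nat_lit 0) (p (nat_lit 0x28092) (nat_lit 0) (p (nat_lit 0x18012) (nat_lit 0) pn)))))))))))))))))) :=
  Cl.node (nat_lit 0x10b0a8989089a) (nat_lit 1) (by decide +kernel) (ClAll.succ ClAll.zero n107)

def n109 : Cl (O (nat_lit 6)) (R (nat_lit 131281))
    (p (nat_lit 0x10a090888079a) (nat_lit 0) (p (nat_lit 0x89888807871a) (nat_lit 0) (p (nat_lit 0x8000080000000090787068a) (nat_lit 0) (p (nat_lit 0x10807068602) (nat_lit 0) (p (nat_lit 0x8786860582) (nat_lit 0) (p (nat_lit 0x10686058502) (nat_lit 0) (p (nat_lit 0x8605850482) (nat_lit 0) (p (nat_lit 0x160004) (nat_lit 0) (p (nat_lit 0x68512) (nat_lit 0) (p (nat_lit 0x58492) (nat_lit 0) (p (nat_lit 0x48412) (nat_lit 0) (p (nat_lit 0x50312) (nat_lit 0) (p (nat_lit 0x40292) (nat_lit 0) (p (nat_lit 0x30212) (nat_lit 0) (p (nat_lit 0x38112) (nat_lit 0) (p (nat_lit 0x28092) (nat_lit 0) (p (nat_lit 0x18012)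 (nat_lit 0) pn))))))))))))))))) :=
  Cl.node (nat_lit 0x8a8a0908881a) (nat_lit 1) (by decide +kernel) (ClAll.succ ClAll.zero n108)

def n110 : Cl (O (nat_lit 6)) (R (nat_lit 131281))
    (p (nat_lit 0x89888807871a) (nat_lit 0) (p (nat_lit 0x8000080000000090787068a) (nat_lit 0) (p (nat_lit 0x10807068602) (nat_lit 0) (p (nat_lit 0x8786860582) (nat_lit 0) (p (nat_lit 0x10686058502) (nat_lit 0) (p (nat_lit 0x8605850482) (nat_lit 0) (p (nat_lit 0x160004) (nat_lit 0) (p (nat_lit 0x68512) (nat_lit 0) (p (nat_lit 0x58492) (nat_lit 0) (p (nat_lit 0x48412) (nat_lit 0) (p (nat_lit 0x50312) (nat_lit 0) (p (nat_lit 0x40292) (nat_lit 0) (p (nat_lit 0x30212) (nat_lit 0) (p (nat_lit 0x38112) (nat_lit 0) (p (nat_lit 0x28092) (nat_lit 0) (p (nat_lit 0x18012) (nat_lit 0) pn)))))))))))))))) :=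
  Cl.node (nat_lit 0x10a090888079a) (nat_lit 1) (by decide +kernel) (ClAll.succ ClAll.zero n109)

def n111 : Cl (O (nat_lit 6)) (R (nat_lit 131281))
    (p (nat_lit 0x8000080000000090787068a) (nat_lit 0) (p (nat_lit 0x10807068602) (nat_lit 0) (p (nat_lit 0x8786860582) (nat_lit 0) (p (nat_lit 0x10686058502) (nat_lit 0) (p (nat_lit 0x8605850482) (nat_lit 0) (p (nat_lit 0x160004) (nat_lit 0) (p (nat_lit 0x68512) (nat_lit 0) (p (nat_lit 0x58492) (nat_lit 0) (p (nat_lit 0x48412) (nat_lit 0) (p (nat_lit 0x50312) (nat_lit 0) (p (nat_lit 0x40292) (nat_lit 0) (p (nat_lit 0x30212) (nat_lit 0) (p (nat_lit 0x38112) (nat_lit 0) (p (nat_lit 0x28092) (nat_lit 0) (p (nat_lit 0x18012) (nat_lit 0) pn))))))))))))))) :=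
  Cl.node (nat_lit 0x89888807871a) (nat_lit 1) (by decide +kernel) (ClAll.succ ClAll.zero n110)

def n112 : Cl (O (nat_lit 6)) (R (nat_lit 131281))
    (p (nat_lit 0x10807068602) (nat_lit 0) (p (nat_lit 0x8786860582) (nat_lit 0) (p (nat_lit 0x10686058502) (nat_lit 0) (p (nat_lit 0x8605850482) (nat_lit 0) (p (nat_lit 0x160004) (nat_lit 0) (p (nat_lit 0x68512) (nat_lit 0) (p (nat_lit 0x58492) (nat_lit 0) (p (nat_lit 0x48412) (nat_lit 0) (p (nat_lit 0x50312) (nat_lit 0) (p (nat_lit 0x40292) (nat_lit 0) (p (nat_lit 0x30212) (nat_lit 0) (p (nat_lit 0x38112) (nat_lit 0) (p (nat_lit 0x28092) (nat_lit 0) (p (nat_lit 0x18012) (nat_lit 0) pn)))))))))))))) :=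
  Cl.node (nat_lit 0x8000080000000090787068a) (nat_lit 1) (by decide +kernel) (ClAll.succ ClAll.zero n111)

def n113 : Cl (O (nat_lit 6)) (R (nat_lit 131281))
    (p (nat_lit 0x8786860582) (nat_lit 0) (p (nat_lit 0x10686058502) (nat_lit 0) (p (nat_lit 0x8605850482) (nat_lit 0) (p (nat_lit 0x160004) (nat_lit 0) (p (nat_lit 0x68512) (nat_lit 0) (p (nat_lit 0x58492) (nat_lit 0) (p (nat_lit 0x48412) (nat_lit 0) (p (nat_lit 0x50312) (nat_lit 0) (p (nat_lit 0x40292) (nat_lit 0) (p (nat_lit 0x30212) (nat_lit 0) (p (nat_lit 0x38112) (nat_lit 0) (p (nat_lit 0x28092) (nat_lit 0) (p (nat_lit 0x18012) (nat_lit 0) pn))))))))))))) :=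
  Cl.node (nat_lit 0x10807068602) (nat_lit 1) (by decide +kernel) (ClAll.succ ClAll.zero n112)

def n114 : Cl (O (nat_lit 6)) (R (nat_lit 131281))
    (p (nat_lit 0x10686058502) (nat_lit 0) (p (nat_lit 0x8605850482) (nat_lit 0) (p (nat_lit 0x160004) (nat_lit 0) (p (nat_lit 0x68512) (nat_lit 0) (p (nat_lit 0x58492) (nat_lit 0) (p (nat_lit 0x48412) (nat_lit 0) (p (nat_lit 0x50312) (nat_lit 0) (p (nat_lit 0x40292) (nat_lit 0) (p (nat_lit 0x30212) (nat_lit 0) (p (nat_lit 0x38112) (nat_lit 0) (p (nat_lit 0x28092) (nat_lit 0) (p (nat_lit 0x18012) (nat_lit 0) pn)))))))))))) :=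
  Cl.node (nat_lit 0x8786860582) (nat_lit 1) (by decide +kernel) (ClAll.succ ClAll.zero n113)

def n115 : Cl (O (nat_lit 6)) (R (nat_lit 131281))
    (p (nat_lit 0x8605850482) (nat_lit 0) (p (nat_lit 0x160004) (nat_lit 0) (p (nat_lit 0x68512) (nat_lit 0) (p (nat_lit 0x58492) (nat_lit 0) (p (nat_lit 0x48412) (nat_lit 0) (p (nat_lit 0x50312) (nat_lit 0) (p (nat_lit 0x40292) (nat_lit 0) (p (nat_lit 0x30212) (nat_lit 0) (p (nat_lit 0x38112) (nat_lit 0) (p (nat_lit 0x28092) (nat_lit 0) (p (nat_lit 0x18012) (nat_lit 0) pn))))))))))) :=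
  Cl.node (nat_lit 0x10686058502) (nat_lit 1) (by decide +kernel) (ClAll.succ ClAll.zero n114)

def n116 : Cl (O (nat_lit 6)) (R (nat_lit 131281))
    (p (nat_lit 0x160004) (nat_lit 0) (p (nat_lit 0x68512) (nat_lit 0) (p (nat_lit 0x58492) (nat_lit 0) (p (nat_lit 0x48412) (nat_lit 0) (p (nat_lit 0x50312) (nat_lit 0) (p (nat_lit 0x40292) (nat_lit 0) (p (nat_lit 0x30212) (nat_lit 0) (p (nat_lit 0x38112) (nat_lit 0) (p (nat_lit 0x28092) (nat_lit 0) (p (nat_lit 0x18012) (nat_lit 0) pn)))))))))) :=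
  Cl.node (nat_lit 0x8605850482) (nat_lit 1) (by decide +kernel) (ClAll.succ ClAll.zero n115)

def n117 : Cl (O (nat_lit 6)) (R (nat_lit 131281))
    (p (nat_lit 0x68512) (nat_lit 0) (p (nat_lit 0x58492) (nat_lit 0) (p (nat_lit 0x48412) (nat_lit 0) (p (nat_lit 0x50312) (nat_lit 0) (p (nat_lit 0x40292) (nat_lit 0) (p (nat_lit 0x30212) (nat_lit 0) (p (nat_lit 0x38112) (nat_lit 0) (p (nat_lit 0x28092) (nat_lit 0) (p (nat_lit 0x18012) (nat_lit 0) pn))))))))) :=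
  Cl.node (nat_lit 0x160004) (nat_lit 2) (by decide +kernel) (ClAll.succ (ClAll.succ ClAll.zero n116) s109)

def n118 : Cl (O (nat_lit 6)) (R (nat_lit 131281))
    (p (nat_lit 0x58492) (nat_lit 0) (p (nat_lit 0x48412) (nat_lit 0) (p (nat_lit 0x50312) (nat_lit 0) (p (nat_lit 0x40292) (nat_lit 0) (p (nat_lit 0x30212) (nat_lit 0) (p (nat_lit 0x38112) (nat_lit 0) (p (nat_lit 0x28092) (nat_lit 0) (p (nat_lit 0x18012) (nat_lit 0) pn)))))))) :=
  Cl.node (nat_lit 0x68512) (nat_lit 1) (by decide +kernel) (ClAll.succ ClAll.zero n117)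

def n119 : Cl (O (nat_lit 6)) (R (nat_lit 131281))
    (p (nat_lit 0x48412) (nat_lit 0) (p (nat_lit 0x50312) (nat_lit 0) (p (nat_lit 0x40292) (nat_lit 0) (p (nat_lit 0x30212) (nat_lit 0) (p (nat_lit 0x38112) (nat_lit 0) (p (nat_lit 0x28092) (nat_lit 0) (p (nat_lit 0x18012) (nat_lit 0) pn))))))) :=
  Cl.node (nat_lit 0x58492) (nat_lit 1) (by decide +kernel) (ClAll.succ ClAll.zero n118)

def n120 : Cl (O (nat_lit 6)) (R (nat_lit 131281))
    (p (nat_lit 0x50312) (nat_lit 0) (p (nat_lit 0x40292) (nat_lit 0) (p (nat_lit 0x30212) (nat_lit 0) (p (nat_lit 0x38112) (nat_lit 0) (p (nat_lit 0x28092) (nat_lit 0) (p (nat_lit 0x18012) (nat_lit 0) pn)))))) :=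
  Cl.node (nat_lit 0x48412) (nat_lit 1) (by decide +kernel) (ClAll.succ ClAll.zero n119)

def n121 : Cl (O (nat_lit 6)) (R (nat_lit 131281))
    (p (nat_lit 0x40292) (nat_lit 0) (p (nat_lit 0x30212) (nat_lit 0) (p (nat_lit 0x38112) (nat_lit 0) (p (nat_lit 0x28092) (nat_lit 0) (p (nat_lit 0x18012) (nat_lit 0) pn))))) :=
  Cl.node (nat_lit 0x50312) (nat_lit 1) (by decide +kernel) (ClAll.succ ClAll.zero n120)

def n122 : Cl (O (nat_lit 6)) (R (nat_lit 131281))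
    (p (nat_lit 0x30212) (nat_lit 0) (p (nat_lit 0x38112) (nat_lit 0) (p (nat_lit 0x28092) (nat_lit 0) (p (nat_lit 0x18012) (nat_lit 0) pn)))) :=
  Cl.node (nat_lit 0x40292) (nat_lit 1) (by decide +kernel) (ClAll.succ ClAll.zero n121)

def n123 : Cl (O (nat_lit 6)) (R (nat_lit 131281))
    (p (nat_lit 0x38112) (nat_lit 0) (p (nat_lit 0x28092) (nat_lit 0) (p (nat_lit 0x18012) (nat_lit 0) pn))) :=
  Cl.node (nat_lit 0x30212) (nat_lit 1) (by decide +kernel) (ClAll.succ ClAll.zero n122)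

def n124 : Cl (O (nat_lit 6)) (R (nat_lit 131281))
    (p (nat_lit 0x28092) (nat_lit 0) (p (nat_lit 0x18012) (nat_lit 0) pn)) :=
  Cl.node (nat_lit 0x38112) (nat_lit 1) (by decide +kernel) (ClAll.succ ClAll.zero n123)

def n125 : Cl (O (nat_lit 6)) (R (nat_lit 131281))
    (p (nat_lit 0x18012) (nat_lit 0) pn) :=
  Cl.node (nat_lit 0x28092) (nat_lit 1) (by decide +kernel) (ClAll.succ ClAll.zero n124)

def n126 : Cl (O (nat_lit 6)) (R (nat_lit 131281))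
    pn :=
  Cl.node (nat_lit 0x18012) (nat_lit 1) (by decide +kernel) (ClAll.succ ClAll.zero n125)

theorem top : Cl (O (nat_lit 6)) (R (nat_lit 131281)) pn := n126

end Pool.Agent.Gen.F5.X123CCDm6
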